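import Pool.Agent.Helper45.LGB.St2

set_option autoImplicit false

/-! Project LGB: an explicit radius. -/

namespace Pool.Agent.Helper45.LGB

open scoped BigOperators

private lemma pp_mono (hPKU : StPKU) {p m r q r' q' : ℕ} (hr : r ≤ r') (hq : q ≤ q')
    (h : PP p m r q) : PP p m r' q' := by
  intro ι E V _ _ f Y W W' hC u hu hP w hw
  obtain ⟨-, h2, h3, -, -⟩ := hPKU ι E
  exact h ι E V f Y W W' hC u hu
    (h3 r r' (q + 1) _ hr (h2 r' (q' + 1) (q + 1) _ _ hP (by omega) (fun _ h => h))) w hw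

private lemma pp_zero (hLST : StLST) (p : ℕ) : PP p 0 0 0 := by
  intro ι E V _ _ f Y W W' hC u hu _ w hw
  obtain ⟨-, -, -, hW, -, hN⟩ := hC
  obtain ⟨-, -, -, -, -, -, -, h8, -⟩ := hLST p ι V f Y
  have h1 : act f u w ∈ W := h8 W hW u hu w hw
  have h2 := hN (fun i => i.elim0) (fun i => i.elim0) _ h1
  simpa using h2

private lemma key (m a b : ℕ) (ha : 2 ≤ a) (hb : 1 ≤ b) :
    2 * ((b - 1 + 1) * (2 * ((m + 1) * (m * (a - 2) + 1)) - 1) + 2 * (b - 1) + 1) + 1 ≤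
      b * 2 ^ (2 * m + 2) * a := by
  obtain ⟨c, rfl⟩ : ∃ c, a = c + 2 := ⟨a - 2, by omega⟩
  obtain ⟨e, rfl⟩ : ∃ e, b = e + 1 := ⟨b - 1, by omega⟩
  set Q := (m + 1) * (m * (c + 2 - 2) + 1) with hQ
  have hQ1 : 1 ≤ Q := by
    rw [hQ]
    exact Nat.mul_pos (Nat.succ_pos m) (Nat.succ_pos _)
  have h1 : (m + 1) ^ 2 ≤ 4 ^ m := by
    have h2 : m + 1 ≤ 2 ^ m := Nat.lt_two_pow_self
    calc (m + 1) ^ 2 ≤ (2 ^ m) ^ 2 := Nat.pow_le_pow_left h2 2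
      _ = 4 ^ m := by rw [← pow_mul, mul_comm, pow_mul]; norm_num
  have h3 : 4 * Q + 2 ≤ 2 ^ (2 * m + 2) * (c + 2) := by
    have e1 : (2 : ℕ) ^ (2 * m + 2) = 4 * 4 ^ m := by
      rw [pow_add, pow_mul]; norm_num; ring
    rw [e1]
    have h4 : 4 * (m + 1) ^ 2 * (c + 2) ≤ 4 * 4 ^ m * (c + 2) :=
      Nat.mul_le_mul_right _ (Nat.mul_le_mul_left _ h1)
    refine le_trans ?_ h4
    rw [hQ, Nat.add_sub_cancel]
    nlinarith [Nat.zero_le (m * c), Nat.zero_le c, Nat.zero_le m]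
  obtain ⟨Q', hQ'⟩ : ∃ Q', Q = Q' + 1 := ⟨Q - 1, by omega⟩
  have e2 : 2 * Q - 1 = 2 * Q' + 1 := by omega
  have h5 : (e + 1) * (4 * Q + 2) ≤ (e + 1) * (2 ^ (2 * m + 2) * (c + 2)) :=
    Nat.mul_le_mul_left _ h3
  rw [e2, Nat.add_sub_cancel, mul_assoc]
  refine le_trans ?_ h5
  rw [hQ']
  nlinarith [Nat.zero_le (e * Q')]

/-- explicit form of the theorem on Lie algebras of operators -/
theorem lie_explicit (hPKU : StPKU) (hLST : StLST) (hPPS : StPPS) (p : ℕ) [Fact p.Prime] :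
    ∀ m : ℕ, m < p → PP p m (2 ^ (m ^ 2 + m + 2 ^ m - 1) - 1) (2 ^ (2 ^ m) - 2) := by
  intro m
  induction m with
  | zero => intro _; simpa using pp_zero hLST p
  | succ m ih =>
    intro hm
    have h1 := hPPS p m _ _ hm (ih (by omega))
    have ha : 2 ≤ 2 ^ (2 ^ m) := by
      calc 2 = 2 ^ 1 := rfl
        _ ≤ 2 ^ (2 ^ m) := Nat.pow_le_pow_right (by norm_num) Nat.one_le_two_pow
    have hb : 1 ≤ 2 ^ (m ^ 2 + m + 2 ^ m - 1) := Nat.one_le_two_pow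
    refine pp_mono hPKU ?_ ?_ h1
    · have hk := key m _ _ ha hb
      have e : 2 ^ (m ^ 2 + m + 2 ^ m - 1) * 2 ^ (2 * m + 2) * 2 ^ (2 ^ m) =
          2 ^ ((m + 1) ^ 2 + (m + 1) + 2 ^ (m + 1) - 1) := by
        rw [← pow_add, ← pow_add]
        congr 1
        have h2 : 1 ≤ 2 ^ m := Nat.one_le_two_pow
        have e1 : 2 ^ (m + 1) = 2 ^ m + 2 ^ m := by ring
        have e2 : (m + 1) ^ 2 = m ^ 2 + 2 * m + 1 := by ring
        rw [e1, e2]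
        omega
      rw [e] at hk
      omega
    · have e : 2 ^ (2 ^ (m + 1)) = 2 ^ (2 ^ m) * 2 ^ (2 ^ m) := by
        rw [← pow_add]; congr 1; ring
      rw [e]
      obtain ⟨c, hc⟩ : ∃ c, 2 ^ (2 ^ m) = c + 2 := ⟨2 ^ (2 ^ m) - 2, by omega⟩
      rw [hc]
      have : (c + 2) * (c + 2) = (c + 1) * (c + 2) + (c + 2) := by ring
      rw [this, Nat.add_sub_cancel]
      omega

theorem radius_le (p : ℕ) (hp : 2 ≤ p) :
    (2 ^ ((p - 1) ^ 2 + (p - 1) + 2 ^ (p - 1) - 1) - 1 + 1) * (2 ^ (2 ^ (p - 1)) - 2 + 1) ≤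
      2 ^ (2 ^ (p + 1)) := by
  obtain ⟨m, rfl⟩ : ∃ m, p = m + 1 := ⟨p - 1, by omega⟩
  have h0 : 1 ≤ m := by omega
  rw [Nat.add_sub_cancel]
  have h1 : 1 ≤ 2 ^ (m ^ 2 + m + 2 ^ m - 1) := Nat.one_le_two_pow
  have h2 : 2 ^ (m ^ 2 + m + 2 ^ m - 1) - 1 + 1 = 2 ^ (m ^ 2 + m + 2 ^ m - 1) := by omega
  have ha : 2 ≤ 2 ^ (2 ^ m) := by
    calc 2 = 2 ^ 1 := rfl
      _ ≤ 2 ^ (2 ^ m) := Nat.pow_le_pow_right (by norm_num) Nat.one_le_two_pow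
  have h3 : 2 ^ (2 ^ m) - 2 + 1 ≤ 2 ^ (2 ^ m) := by omega
  rw [h2]
  refine le_trans (Nat.mul_le_mul_left _ h3) ?_
  rw [← pow_add]
  apply Nat.pow_le_pow_right (by norm_num)
  have h4 : m ^ 2 + m ≤ 2 * 2 ^ m + 1 := by
    clear h1 h2 ha h3 hp h0
    induction m with
    | zero => norm_num
    | succ k ih =>
      have e2 : 2 ^ (k + 1) = 2 * 2 ^ k := by ring
      have h5 : k + 1 ≤ 2 ^ k := Nat.lt_two_pow_self
      have e3 : (k + 1) ^ 2 + (k + 1) = k ^ 2 + k + 2 * (k + 1) := by ring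
      omega
  have e : 2 ^ (m + 1 + 1) = 4 * 2 ^ m := by ring
  omega

end Pool.Agent.Helper45.LGB
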