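import Pool.Agent.Helper45.LGB.Bound
import Pool.Agent.Helper63.RB.M_LCC

set_option autoImplicit false

/-!
Project LGB: the theorem with the graph in which `x` and `y` are adjacent if their commutator is
not in `gamma_3(G)`. The proofs are those of the modules GRN (helper86), GCN (helper62), BAL
(helper34), BDG (helper9) and FNL (helper43).
-/

namespace Pool.Agent.Helper45.LGB

open Pool.Agent.Helper83.RB

open scoped BigOperators commutatorElement

/-- The graph on `X`: the commutator is not in `gamma_3(G)`. -/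
def ND {G : Type} [Group G] (X : Set G) : ↥X → ↥X → Prop :=
  fun a b => ⁅(a : G), (b : G)⁆ ∉ (⊤ : Subgroup G).lowerCentralSeries 2

theorem nd_symm {G : Type} [Group G] (X : Set G) : Sy (ND X) := by
  intro a b h h'
  apply h
  rw [← commutatorElement_inv]
  exact inv_mem h'

private theorem cb_add_left {A : Type} [Ring A] (a a' b : A) : cb (a + a') b = cb a b + cb a' b := by
  unfold cb; noncomm_ring

private theorem cb_add_right {A : Type} [Ring A] (a b b' : A) : cb a (b + b') = cb a b + cb a b' := by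
  unfold cb; noncomm_ring

private theorem cb_neg_left {A : Type} [Ring A] (a b : A) : cb (-a) b = -cb a b := by
  unfold cb; noncomm_ring

private theorem cb_neg_right {A : Type} [Ring A] (a b : A) : cb a (-b) = -cb a b := by
  unfold cb; noncomm_ring

private theorem cb_zero_left {A : Type} [Ring A] (b : A) : cb 0 b = 0 := by
  unfold cb; simp

private theorem cb_zero_right {A : Type} [Ring A] (a : A) : cb a 0 = 0 := by
  unfold cb; simp

private theorem cb_closure {A : Type} [Ring A] (S : Set A)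
    (h : ∀ a ∈ S, ∀ b ∈ S, cb a b ∈ AddSubgroup.closure S) {a b : A}
    (ha : a ∈ AddSubgroup.closure S) (hb : b ∈ AddSubgroup.closure S) :
    cb a b ∈ AddSubgroup.closure S := by
  have h1 : ∀ a ∈ S, ∀ b ∈ AddSubgroup.closure S, cb a b ∈ AddSubgroup.closure S := by
    intro a ha b hb
    induction hb using AddSubgroup.closure_induction with
    | mem x hx => exact h a ha x hx
    | zero => rw [cb_zero_right]; exact zero_mem _
    | add x y _ _ hx hy => rw [cb_add_right]; exact add_mem hx hy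
    | neg x _ hx => rw [cb_neg_right]; exact neg_mem hx
  induction ha using AddSubgroup.closure_induction with
  | mem x hx => exact h1 x hx b hb
  | zero => rw [cb_zero_left]; exact zero_mem _
  | add x y _ _ hx hy => rw [cb_add_left]; exact add_mem hx hy
  | neg x _ hx => rw [cb_neg_left]; exact neg_mem hx

/-- GRN for the graph `ND`. -/
theorem grn3 (hGRV : StGRV) (hGRD : StGRD) (hMLS : StMLS) (p : ℕ) [Fact p.Prime] (G : Type)
    [Group G] (hG : ∀ g : G, g ^ p = 1) (X : Set G) :
    ∃ (V : Type) (_ : AddCommGroup V) (_ : Module (ZMod p) V) (f : ↥X → Module.End (ZMod p) V)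
      (e : G → V), Cmm (ND X) f ∧ NilH f (p - 1) Set.univ ⊤ ⊥ ∧
      (∀ x y : ↥X, ¬ ND X x y → f y (e x) = 0) ∧
      ∀ (x : G) (u : List ↥X), act f u (e x) = 0 →
        ic x (u.map Subtype.val) ∈ (⊤ : Subgroup G).lowerCentralSeries (u.length + 1) := by
  obtain ⟨V, iV, iM, e, D, h1, h2, h3, h4⟩ := hGRV p G hG
  obtain ⟨_, d2, d3, -⟩ := hGRD p G hG V e D h1 h2 h3 h4
  have hact : ∀ (u : List ↥X) (k : ℕ) (a : G), a ∈ (⊤ : Subgroup G).lowerCentralSeries k →
      act (fun y : ↥X => D 0 (y : G)) u (e k a) = e (k + u.length) (ic a (u.map Subtype.val)) ∧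
        ic a (u.map Subtype.val) ∈ (⊤ : Subgroup G).lowerCentralSeries (k + u.length) := by
    intro u
    induction u with
    | nil => exact fun k a ha => ⟨rfl, ha⟩
    | cons y u ih =>
      intro k a ha
      have hy : (y : G) ∈ (⊤ : Subgroup G).lowerCentralSeries 0 := Subgroup.mem_top _
      have hc : ⁅a, (y : G)⁆ ∈ (⊤ : Subgroup G).lowerCentralSeries (k + 1) := by
        rw [Subgroup.lowerCentralSeries_succ]
        exact Subgroup.commutator_mem_commutator ha (Subgroup.mem_top _)
      have h5 := ih (k + 1) ⁅a, (y : G)⁆ hc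
      have h6 := h3 k 0 a ha (y : G) hy
      have e1 : k + 1 + u.length = k + (u.length + 1) := by omega
      rw [e1] at h5
      refine ⟨?_, h5.2⟩
      rw [List.length_cons]
      refine Eq.trans ?_ h5.1
      show act (fun y : ↥X => D 0 (y : G)) u (D 0 (y : G) (e k a)) = _
      rw [h6]
  refine ⟨V, iV, iM, fun y => D 0 (y : G), e 0, ?_, ?_, ?_, ?_⟩
  · intro i j hij
    have hc : ⁅(i : G), (j : G)⁆ ∈ (⊤ : Subgroup G).lowerCentralSeries 2 := not_not.mp hij
    have hc' : ⁅(j : G), (i : G)⁆ ∈ (⊤ : Subgroup G).lowerCentralSeries 2 := by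
      rw [← commutatorElement_inv]
      exact inv_mem hc
    have h5 := d2 0 0 (i : G) (Subgroup.mem_top _) (j : G) (Subgroup.mem_top _)
    have h6 : D (0 + 0 + 1) ⁅(j : G), (i : G)⁆ = 0 := by
      refine h4 _ ?_
      intro k a ha
      have h7 : ⁅(j : G), (i : G)⁆ ∈ (⊤ : Subgroup G).lowerCentralSeries (0 + 0 + 1) :=
        Subgroup.lowerCentralSeries_antitone (⊤ : Subgroup G) (by norm_num) hc'
      rw [h3 k (0 + 0 + 1) a ha _ h7]
      have h8 := Pool.Agent.Helper63.RB.hLCC G k 2 (Subgroup.commutator_mem_commutator ha hc')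
      have h9 : ⁅a, ⁅(j : G), (i : G)⁆⁆ ∈
          (⊤ : Subgroup G).lowerCentralSeries (k + (0 + 0 + 1) + 1) :=
        Subgroup.lowerCentralSeries_antitone (⊤ : Subgroup G) (by omega) h8
      exact (h2 _ _ h9).2 (Subgroup.lowerCentralSeries_antitone (⊤ : Subgroup G) (by omega) h8)
    rw [h6] at h5
    exact sub_eq_zero.1 h5
  · intro l hl w _
    let S : Set (Module.End (ZMod p) V) :=
      {F | ∃ w : ℕ, ∃ g ∈ (⊤ : Subgroup G).lowerCentralSeries w, F = D w g}
    have hS : ∀ l : Fin (p - 1) → Module.End (ZMod p) V, (∀ i, l i ∈ S) →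
        ∑ σ : Equiv.Perm (Fin (p - 1)), (List.ofFn fun i => l (σ i)).prod = 0 := by
      intro l hl
      choose ω g hg hlg using hl
      have h5 := d3 ω g hg
      have h6 : l = fun i => D (ω i) (g i) := funext hlg
      rw [h6]
      exact h5
    have hcl : ∀ a : Module.End (ZMod p) V,
        Lam (fun y : ↥X => D 0 (y : G)) Set.univ a → a ∈ AddSubgroup.closure S := by
      intro a ha
      induction ha with
      | gen y _ => exact AddSubgroup.subset_closure ⟨0, (y : G), Subgroup.mem_top _, rfl⟩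
      | zero => exact zero_mem _
      | add a b _ _ iha ihb => exact add_mem iha ihb
      | smul c a _ iha =>
        have h7 : c • a = c.val • a := by
          rw [← Nat.cast_smul_eq_nsmul (ZMod p), ZMod.natCast_zmod_val]
        rw [h7]
        exact nsmul_mem iha _
      | lie a b _ _ iha ihb =>
        refine cb_closure S ?_ iha ihb
        rintro _ ⟨w, g, hg, rfl⟩ _ ⟨w', h, hh, rfl⟩
        rw [d2 w w' g hg h hh]
        refine AddSubgroup.subset_closure ⟨w + w' + 1, ⁅h, g⁆, ?_, rfl⟩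
        have h8 := Pool.Agent.Helper63.RB.hLCC G w' w (Subgroup.commutator_mem_commutator hh hg)
        rwa [add_comm w' w] at h8
    have h9 := hMLS (Module.End (ZMod p) V) (p - 1) S hS l (fun i => hcl _ (hl i))
    rw [h9]
    exact Submodule.zero_mem _
  · intro x y hxy
    have hc : ⁅(x : G), (y : G)⁆ ∈ (⊤ : Subgroup G).lowerCentralSeries 2 := not_not.mp hxy
    show D 0 (y : G) (e 0 (x : G)) = 0
    rw [h3 0 0 (x : G) (Subgroup.mem_top _) (y : G) (Subgroup.mem_top _)]
    exact (h2 _ _ (Subgroup.lowerCentralSeries_antitone (⊤ : Subgroup G) (by norm_num) hc)).2 hc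
  · intro x u hu
    have h5 := hact u 0 x (Subgroup.mem_top _)
    rw [h5.1] at hu
    have h6 := (h2 _ _ h5.2).1 hu
    rwa [zero_add] at h6

private theorem act_append {p : ℕ} {ι V : Type} [AddCommGroup V] [Module (ZMod p) V]
    (f : ι → Module.End (ZMod p) V) (u u' : List ι) (v : V) :
    act f (u ++ u') v = act f u' (act f u v) := by
  unfold act
  rw [List.foldl_append]

private theorem act_cons {p : ℕ} {ι V : Type} [AddCommGroup V] [Module (ZMod p) V]
    (f : ι → Module.End (ZMod p) V) (y : ι) (u : List ι) (v : V) :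
    act f (y :: u) v = act f u (f y v) := rfl

private theorem act_zero {p : ℕ} {ι V : Type} [AddCommGroup V] [Module (ZMod p) V]
    (f : ι → Module.End (ZMod p) V) (u : List ι) : act f u (0 : V) = 0 := by
  induction u with
  | nil => rfl
  | cons y u ih => rw [act_cons, map_zero, ih]

private theorem act_comm {p : ℕ} {ι V : Type} [AddCommGroup V] [Module (ZMod p) V]
    (f : ι → Module.End (ZMod p) V) (y : ι) (u : List ι)
    (h : ∀ z ∈ u, f z * f y = f y * f z) (v : V) : f y (act f u v) = act f u (f y v) := by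
  induction u generalizing v with
  | nil => rfl
  | cons z u ih =>
    rw [act_cons, act_cons, ih (fun a ha => h a (List.mem_cons_of_mem _ ha))]
    have h1 := h z List.mem_cons_self
    have h2 : f y (f z v) = f z (f y v) := by
      rw [← Module.End.mul_apply, ← Module.End.mul_apply, h1]
    rw [h2]

/-- GCN in operator form. -/
theorem cn3 {p : ℕ} {ι V : Type} [AddCommGroup V] [Module (ZMod p) V] (E : ι → ι → Prop)
    (f : ι → Module.End (ZMod p) V) (hC : Cmm E f) (x : ι) (v : V)
    (hx : ∀ y, ¬ E x y → f y v = 0) (u : List ι) (hu : act f u v ≠ 0) : Cn E x u := by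
  intro d₁ y d₂ hd
  by_contra hc
  push Not at hc
  apply hu
  rw [hd, act_append, act_cons, act_comm f y d₁ (fun z hz => hC z y (hc z (Or.inr hz))),
    hx y (hc x (Or.inl rfl)), act_zero, act_zero]

/-- The ball of radius `n` around `x` in the graph `ND`. -/
def Ball3 {G : Type} [Group G] (X : Set G) (x : G) : ℕ → Set G
  | 0 => {x}
  | n + 1 => {y | ∃ z ∈ Ball3 X x n, z = y ∨
      (y ∈ X ∧ ⁅z, y⁆ ∉ (⊤ : Subgroup G).lowerCentralSeries 2)}

theorem ball3_of_nr {G : Type} [Group G] (X : Set G) (n : ℕ) (x : ↥X) :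
    ∀ y : ↥X, nr (ND X) n x y → (y : G) ∈ Ball3 X (x : G) n := by
  induction n with
  | zero =>
    intro y h
    have h' : x = y := h
    rw [h']
    exact rfl
  | succ n ih =>
    rintro y ⟨c, hc, h⟩
    refine ⟨c, ih c hc, ?_⟩
    rcases h with h | h
    · exact Or.inl (congrArg Subtype.val h)
    · exact Or.inr ⟨y.2, h⟩

theorem ball3_sub {G : Type} [Group G] (X : Set G) (n : ℕ) (x : G) (hx : x ∈ X) :
    Ball3 X x n ⊆ X := by
  induction n with
  | zero =>
    rintro y rfl
    exact hx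
  | succ n ih =>
    rintro y ⟨z, hz, h⟩
    rcases h with rfl | h
    · exact ih hz
    · exact h.1

theorem ball3_self {G : Type} [Group G] (X : Set G) (n : ℕ) (x : G) : x ∈ Ball3 X x n := by
  induction n with
  | zero => exact rfl
  | succ n ih => exact ⟨x, ih, Or.inl rfl⟩

theorem ball3_mono {G : Type} [Group G] (X : Set G) (x : G) {a b : ℕ} (h : a ≤ b) :
    Ball3 X x a ⊆ Ball3 X x b := by
  induction h with
  | refl => exact fun _ h => h
  | step _ ih => exact fun y hy => ⟨y, ih hy, Or.inl rfl⟩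

/-- the closed neighbourhood of a vertex -/
private def nb {G : Type} [Group G] (X : Set G) (z : G) : Set G :=
  insert z {y | y ∈ X ∧ ⁅z, y⁆ ∉ (⊤ : Subgroup G).lowerCentralSeries 2}

open Classical in
/-- the closed neighbourhood as a `Finset` -/
private noncomputable def nf {G : Type} [Group G] (X : Set G) (z : G) : Finset G :=
  if h : (nb X z).Finite then h.toFinset else ∅

open Classical in
theorem ball3_card {G : Type} [Group G] (X : Set G) (Δ n : ℕ) (x : G) (hx : x ∈ X)
    (h : ∀ z ∈ X, {y | y ∈ X ∧ ⁅z, y⁆ ∉ (⊤ : Subgroup G).lowerCentralSeries 2}.Finite ∧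
      {y | y ∈ X ∧ ⁅z, y⁆ ∉ (⊤ : Subgroup G).lowerCentralSeries 2}.ncard ≤ Δ) :
    (Ball3 X x n).Finite ∧ (Ball3 X x n).ncard ≤ (Δ + 1) ^ n := by
  have hf : ∀ z ∈ X, (nb X z).Finite := fun z hz => (h z hz).1.insert z
  have hn : ∀ z ∈ X, (nf X z).card ≤ Δ + 1 := by
    intro z hz
    unfold nf
    rw [dif_pos (hf z hz), ← Set.ncard_eq_toFinset_card (nb X z) (hf z hz)]
    exact (Set.ncard_insert_le z _).trans (Nat.add_le_add_right (h z hz).2 1)
  induction n with
  | zero =>
    refine ⟨Set.finite_singleton x, ?_⟩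
    show ({x} : Set G).ncard ≤ (Δ + 1) ^ 0
    rw [Set.ncard_singleton, pow_zero]
  | succ n ih =>
    obtain ⟨h1, h2⟩ := ih
    have hsub : Ball3 X x (n + 1) ⊆ ((h1.toFinset.biUnion (nf X) : Finset G) : Set G) := by
      rintro y ⟨z, hz, hy⟩
      have hzX : z ∈ X := ball3_sub X n x hx hz
      rw [Finset.mem_coe, Finset.mem_biUnion]
      refine ⟨z, h1.mem_toFinset.2 hz, ?_⟩
      unfold nf
      rw [dif_pos (hf z hzX), Set.Finite.mem_toFinset]
      rcases hy with rfl | hy
      · exact Set.mem_insert _ _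
      · exact Set.mem_insert_of_mem _ hy
    refine ⟨(Finset.finite_toSet _).subset hsub, ?_⟩
    refine (Set.ncard_le_ncard hsub (Finset.finite_toSet _)).trans ?_
    rw [Set.ncard_coe_finset]
    refine (Finset.card_biUnion_le_card_mul _ _ (Δ + 1) ?_).trans ?_
    · intro z hz
      exact hn z (ball3_sub X n x hx (h1.mem_toFinset.1 hz))
    · rw [← Set.ncard_eq_toFinset_card (Ball3 X x n) h1, pow_succ]
      exact Nat.mul_le_mul_right _ h2

/-- BDG for the graph `ND` and finite groups. -/
theorem bdg3 (p R Δ c : ℕ)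
    (hH : ∀ (H : Type) [Group H] [Finite H], (∀ h : H, h ^ p = 1) →
      (∃ f : Fin ((Δ + 1) ^ R) → H, Subgroup.closure (Set.range f) = ⊤) →
      (⊤ : Subgroup H).lowerCentralSeries c = ⊥) (G : Type) [Group G] [Finite G]
    (hG : ∀ g : G, g ^ p = 1) (X : Set G)
    (hX : ∀ x ∈ X, {y | y ∈ X ∧ ⁅x, y⁆ ∉ (⊤ : Subgroup G).lowerCentralSeries 2}.ncard ≤ Δ)
    (x : G) (hx : x ∈ X) : (Subgroup.closure (Ball3 X x R)).lowerCentralSeries c = ⊥ := by
  obtain ⟨hfin, hcard⟩ := ball3_card X Δ R x hx (fun z hz => ⟨Set.toFinite _, hX z hz⟩)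
  have hmem : x ∈ Ball3 X x R := ball3_self X R x
  have hexp : ∀ h : Subgroup.closure (Ball3 X x R), h ^ p = 1 := by
    intro h
    apply Subtype.ext
    rw [Subgroup.coe_pow, Subgroup.coe_one]
    exact hG _
  have hf : ∃ f : Fin ((Δ + 1) ^ R) → Subgroup.closure (Ball3 X x R),
      Subgroup.closure (Set.range f) = ⊤ := by
    have hF : Finite (Ball3 X x R) := hfin
    have := Fintype.ofFinite (Ball3 X x R)
    have hc : Fintype.card (Ball3 X x R) ≤ Fintype.card (Fin ((Δ + 1) ^ R)) := by
      rw [Fintype.card_fin, ← Nat.card_eq_fintype_card, Nat.card_coe_set_eq]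
      exact hcard
    obtain ⟨j⟩ := Function.Embedding.nonempty_of_card_le hc
    have hne : Nonempty (Ball3 X x R) := ⟨⟨x, hmem⟩⟩
    have hsurj := Function.invFun_surjective j.injective
    refine ⟨fun i => ⟨(Function.invFun j i).1, Subgroup.subset_closure (Function.invFun j i).2⟩,
      ?_⟩
    rw [eq_top_iff, ← Subgroup.closure_closure_coe_preimage (k := Ball3 X x R)]
    refine Subgroup.closure_mono ?_
    intro y hy
    obtain ⟨i, hi⟩ := hsurj ⟨y.1, hy⟩
    exact ⟨i, Subtype.ext (by simp only [hi])⟩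
  have h1 := hH (Subgroup.closure (Ball3 X x R)) hexp hf
  rw [← Subgroup.top_subtype_lowerCentralSeries, h1, Subgroup.map_bot]

private theorem ic_mem3 {G : Type} [Group G] (H : Subgroup G) : ∀ (l : List G) (v : G) (k : ℕ),
    (∀ g ∈ l, g ∈ H) → v ∈ H.lowerCentralSeries k → ic v l ∈ H.lowerCentralSeries (k + l.length)
  | [], v, k, _, hv => by
    unfold ic
    rw [List.foldl_nil, List.length_nil, Nat.add_zero]
    exact hv
  | g :: l, v, k, hl, hv => by
    have h1 : ⁅v, g⁆ ∈ H.lowerCentralSeries (k + 1) := by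
      rw [Subgroup.lowerCentralSeries_succ]
      exact Subgroup.commutator_mem_commutator hv (hl g List.mem_cons_self)
    have h2 := ic_mem3 H l ⁅v, g⁆ (k + 1) (fun g' hg' => hl g' (List.mem_cons_of_mem _ hg')) h1
    have h3 : ic v (g :: l) = ic ⁅v, g⁆ l := rfl
    have h4 : k + (g :: l).length = k + 1 + l.length := by
      rw [List.length_cons]
      omega
    rw [h3, h4]
    exact h2

private theorem coe_list3 {G : Type} {X : Set G} (u : List ↥X) :
    (u.map fun y => (y : G)) = List.map Subtype.val u := by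
  rw [List.map_id']
  simp only [bind_pure_comp, List.map_eq_map]

/-- The theorem for nilpotent groups, graph `ND`, explicit radius. -/
theorem fnl3 (hPKU : StPKU) (hLST : StLST) (hPPS : StPPS) (hGRV : StGRV) (hGRD : StGRD)
    (hMLS : StMLS) (hTOP : StTOP) (hCHA : StCHA) (p : ℕ) [hp : Fact p.Prime] :
    ∀ (G : Type) [Group G], (∀ g : G, g ^ p = 1) →
      ∀ X : Set G, Subgroup.closure X = ⊤ →
      (∃ N : ℕ, (⊤ : Subgroup G).lowerCentralSeries N = ⊥) → ∀ c : ℕ,
      (∀ x ∈ X, (Subgroup.closure (Ball3 X x (2 ^ (2 ^ (p + 1))))).lowerCentralSeries c = ⊥) →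
      (⊤ : Subgroup G).lowerCentralSeries c = ⊥ := by
  classical
  obtain ⟨r, q, hP, hR⟩ : ∃ r q, PP p (p - 1) r q ∧ (r + 1) * (q + 1) ≤ 2 ^ (2 ^ (p + 1)) :=
    ⟨_, _, lie_explicit hPKU hLST hPPS p (p - 1) (Nat.sub_lt hp.out.pos one_pos),
      radius_le p hp.out.two_le⟩
  intro G _ hG X hX hN c hc
  by_contra hcon
  obtain ⟨n, hn1, hn0, hcn⟩ : ∃ n, (⊤ : Subgroup G).lowerCentralSeries (n + 1) = ⊥ ∧
      (⊤ : Subgroup G).lowerCentralSeries n ≠ ⊥ ∧ c ≤ n := by
    have hN1 := Nat.find_spec hN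
    have hcN : c < Nat.find hN := by
      by_contra h
      have h1 := Subgroup.lowerCentralSeries_antitone (⊤ : Subgroup G) (not_lt.1 h)
      rw [hN1] at h1
      exact hcon (le_bot_iff.1 h1)
    have he : Nat.find hN - 1 + 1 = Nat.find hN := by omega
    exact ⟨Nat.find hN - 1, by rw [he]; exact hN1, Nat.find_min hN (by omega), by omega⟩
  obtain ⟨x, u, hu, hxu⟩ := hTOP G X n hX hn1 hn0
  rw [coe_list3] at hxu
  obtain ⟨V, i1, i2, f, e, hC, hNil, hfe, hact⟩ := grn3 hGRV hGRD hMLS p G hG X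
  have hx0 : act f u (e x) ≠ 0 := by
    intro h
    have h1 := hact x u h
    rw [hu, hn1] at h1
    exact hxu (Subgroup.mem_bot.1 h1)
  have hctx : Ctx (ND X) f (p - 1) Set.univ ⊤ ⊥ := by
    refine ⟨nd_symm X, hC, bot_le, fun _ _ _ _ => trivial, ?_, hNil⟩
    intro y _ w hw
    rw [Submodule.mem_bot] at hw ⊢
    rw [hw, map_zero]
  have hPk : ¬ Pk (ND X) r (q + 1) (ltr u) := fun h =>
    hx0 ((Submodule.mem_bot _).1 (hP ↥X (ND X) V f Set.univ ⊤ ⊥ hctx u (fun _ _ => trivial) h
      (e x) trivial))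
  have hCn : Cn (ND X) x u := cn3 (ND X) f hC x (e x) (hfe x) u hx0
  have hball : ∀ y ∈ u, (y : G) ∈ Ball3 X (x : G) (2 ^ (2 ^ (p + 1))) := fun y hy =>
    ball3_mono X _ hR (ball3_of_nr X _ x y
      (by_contra fun h => hPk (hCHA ↥X (ND X) (nd_symm X) x u hCn y hy r (q + 1) h)))
  have hmem := ic_mem3 (Subgroup.closure (Ball3 X (x : G) (2 ^ (2 ^ (p + 1)))))
    (List.map Subtype.val u) (x : G) 0
    (by
      intro g hg
      obtain ⟨y, hy, rfl⟩ := List.mem_map.1 hg
      exact Subgroup.subset_closure (hball y hy))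
    (Subgroup.subset_closure (ball3_self X _ (x : G)))
  rw [Nat.zero_add, List.length_map, hu] at hmem
  have h2 := Subgroup.lowerCentralSeries_antitone
    (Subgroup.closure (Ball3 X (x : G) (2 ^ (2 ^ (p + 1))))) hcn hmem
  rw [hc (x : G) x.2] at h2
  exact hxu (Subgroup.mem_bot.1 h2)

end Pool.Agent.Helper45.LGB
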