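import Pool.Agent.Helper45.LGB.St2
import Pool.Agent.Helper45.LGB.Fnx
import Pool.Agent.Helper45.LGB.Gr
import Pool.Agent.Helper76.LGB.M_GRD
import Pool.Agent.Helper83.RB.Main
import Pool.Agent.Helper36.LGB.M_NRT
import Pool.Agent.Helper92.LGB.M_PKU
import Pool.Agent.Helper8.LGB.M_PKN
import Pool.Agent.Helper43.LGB.M_CHA
import Pool.Agent.Helper72.LGB.M_PRM
import Pool.Agent.Helper69.LGB.M_LST
import Pool.Agent.Helper98.LGB.M_NLV
import Pool.Agent.Helper67.LGB.M_NLX
import Pool.Agent.Helper29.LGB.M_FIL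
import Pool.Agent.Helper61.LGB.M_COL
import Pool.Agent.Helper7.LGB.M_DSA
import Pool.Agent.Helper99.LGB.M_DSB
import Pool.Agent.Helper63.LGB.M_KIL
import Pool.Agent.Helper10.LGB.M_BRK
import Pool.Agent.Helper22.LGB.M_CON
import Pool.Agent.Helper47.LGB.M_EXP
import Pool.Agent.Helper66.LGB.M_LOC
import Pool.Agent.Helper6.LGB.M_MJD
import Pool.Agent.Helper81.LGB.M_PPS
import Pool.Agent.Helper16.LGB.M_STP
import Pool.Agent.Helper90.LGB.M_LIE
import Pool.Agent.Helper43.LGB.M_FNL
import Pool.Agent.Helper53.LGB.M_GMA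
import Pool.Agent.Helper80.LGB.M_BIL
import Pool.Agent.Helper9.LGB.M_CUB
import Pool.Agent.Helper83.LGB.M_CUV
import Pool.Agent.Helper97.LGB.M_ABE
import Pool.Agent.Helper15.LGB.M_ENG
import Pool.Agent.Helper1.LGB.M_GRV
import Pool.Agent.Helper34.LGB.M_MLS
import Pool.Agent.Helper86.LGB.M_GRN
import Pool.Agent.Helper37.LGB.M_TOP
import Pool.Agent.Helper62.LGB.M_GCN
import Pool.Agent.Helper34.LGB.M_BAL
import Pool.Agent.Helper4.LGB.M_LFG
import Pool.Agent.Helper9.LGB.M_BDG

set_option autoImplicit false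

/-! # Project LGB: assembly of the modules -/

namespace Pool.Agent.Helper45.LGB

theorem nrt : StNRT := Helper36.LGB.hNRT

theorem pku : StPKU := Helper92.LGB.hPKU nrt

theorem pkn : StPKN := Helper8.LGB.hPKN pku

theorem cha : StCHA := Helper43.LGB.hCHA nrt

theorem prm : StPRM := Helper72.LGB.hPRM

theorem lst : StLST := Helper69.LGB.hLST

theorem nlv : StNLV := Helper98.LGB.hNLV prm lst

theorem nlx : StNLX := Helper67.LGB.hNLX prm lst

theorem fil : StFIL := Helper29.LGB.hFIL lst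

theorem col : StCOL := Helper61.LGB.hCOL fil

theorem dsa : StDSA := Helper7.LGB.hDSA lst

theorem dsb : StDSB := Helper99.LGB.hDSB pku lst fil dsa

theorem kil : StKIL := Helper63.LGB.hKIL pku pkn lst dsb

theorem brk : StBRK := Helper10.LGB.hBRK pku lst

theorem con : StCON := Helper22.LGB.hCON lst cha

theorem exd : StEXP := Helper47.LGB.hEXP lst

theorem loc : StLOC := Helper66.LGB.hLOC nrt lst nlv fil col kil brk con exd

theorem mjd : StMJD := Helper6.LGB.hMJD nrt pku lst nlx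

theorem gma : StGMA := Helper53.LGB.hGMA Helper83.RB.lcc

theorem bil : StBIL := Helper80.LGB.hBIL Helper83.RB.lcc

theorem cub : StCUB := Helper9.LGB.hCUB gma

theorem cuv : StCUV := Helper83.LGB.hCUV gma cub

theorem abe : StABE := Helper97.LGB.hABE Helper83.RB.pol

theorem eng : StENG := Helper15.LGB.hENG gma cub cuv abe

theorem grv : StGRV := Helper1.LGB.hGRV bil

theorem mls : StMLS := Helper34.LGB.hMLS

theorem top' : StTOP := Helper37.LGB.hTOP bil

theorem gcn : StGCN := Helper62.LGB.hGCN cha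

theorem bal : StBAL := Helper34.LGB.hBAL

theorem bdg : StBDG := Helper9.LGB.hBDG bal

theorem stp : StSTP := Helper16.LGB.hSTP nrt pku lst loc mjd

theorem pps : StPPS := Helper81.LGB.hPPS pku pkn lst mjd stp

theorem lie : StLIE := Helper90.LGB.hLIE lst pps

theorem grd : StGRD := Helper76.LGB.hGRD bil eng

theorem grn : StGRN := Helper86.LGB.hGRN grv grd mls

theorem fnl : StFNL := Helper43.LGB.hFNL lie grn top' gcn bal

/-- The theorem for nilpotent groups; `x` and `y` are adjacent if `⁅x, y⁆` is not in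
`gamma_3(G)`. -/
theorem main3 (p : ℕ) [Fact p.Prime] :
    ∀ (G : Type) [Group G], (∀ g : G, g ^ p = 1) →
      ∀ X : Set G, Subgroup.closure X = ⊤ →
      (∃ N : ℕ, (⊤ : Subgroup G).lowerCentralSeries N = ⊥) → ∀ c : ℕ,
      (∀ x ∈ X, (Subgroup.closure (Ball3 X x (2 ^ (2 ^ (p + 1))))).lowerCentralSeries c = ⊥) →
      (⊤ : Subgroup G).lowerCentralSeries c = ⊥ :=
  fnl3 pku lst pps grv grd mls top' cha p

/-- The theorem for locally finite groups; `x` and `y` are adjacent if they do not commute. -/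
theorem main (p : ℕ) [Fact p.Prime] :
    ∀ (G : Type) [Group G], (∀ g : G, g ^ p = 1) →
    (∀ s : Finset G, Finite (Subgroup.closure (s : Set G))) →
    ∀ X : Set G, Subgroup.closure X = ⊤ → ∀ c : ℕ,
    (∀ x ∈ X, (Subgroup.closure (Ball X x (2 ^ (2 ^ (p + 1))))).lowerCentralSeries c = ⊥) →
    (⊤ : Subgroup G).lowerCentralSeries c = ⊥ :=
  Helper4.LGB.hLFG p (2 ^ (2 ^ (p + 1)))
    (fnl_explicit pku lst pps grn top' gcn bal p)

end Pool.Agent.Helper45.LGB
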