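import Mathlib

set_option autoImplicit false

/-!
Project LGB (problem MP_97dcad_al): the nilpotency class of a group of prime exponent is a LOCAL
invariant. For every prime `p` there is `R` such that for every locally finite group `G` of
exponent `p` and every generating set `X`: `G` has class at most `c` if for every `x` in `X` the
subgroup generated by the ball of radius `R` around `x` in the non-commuting graph of `X` has
class at most `c`.

This file: definitions and the statements of the modules of the first part (Lie algebras of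
operators); the docstring of every statement contains its complete proof.

Conventions. `E i j` means that `i` and `j` are adjacent. Words are lists of letters, the first
letter acts first (`act`). All operators are linear operators of a vector space over `ZMod p`;
`Lam f Y` is the Lie algebra generated by the operators `f y`, `y ∈ Y`. Everything is relative to
two submodules `W' ≤ W` (the `sub-quotient` `W / W'`).
-/

namespace Pool.Agent.Helper45.LGB

open scoped BigOperators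

/-! ### Combinatorial definitions -/

/-- The relation `E` is symmetric. -/
def Sy {ι : Type} (E : ι → ι → Prop) : Prop := ∀ a b, E a b → E b a

/-- `nr E n a b`: there is a walk of length at most `n` from `a` to `b` in the graph `E`. -/
def nr {ι : Type} (E : ι → ι → Prop) : ℕ → ι → ι → Prop
  | 0, a, b => a = b
  | n + 1, a, b => ∃ c, nr E n a c ∧ (c = b ∨ E c b)

/-- The set of letters of a word. -/
def ltr {ι : Type} (u : List ι) : Set ι := {i | i ∈ u}

/-- `Pk E r n T`: the set `T` contains `n` elements which are pairwise at distance `> r`. -/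
def Pk {ι : Type} (E : ι → ι → Prop) (r n : ℕ) (T : Set ι) : Prop :=
  ∃ P : Finset ι, P.card = n ∧ (∀ a ∈ P, a ∈ T) ∧ ∀ a ∈ P, ∀ b ∈ P, a ≠ b → ¬ nr E r a b

/-- Every letter of the word `d` is adjacent to `s` or to an earlier letter of `d`. -/
def Cn {ι : Type} (E : ι → ι → Prop) (s : ι) (d : List ι) : Prop :=
  ∀ (d₁ : List ι) (y : ι) (d₂ : List ι), d = d₁ ++ y :: d₂ → ∃ a, (a = s ∨ a ∈ d₁) ∧ E a y

/-! ### Operators -/

/-- The commutator `a b - b a` in a ring. -/
def cb {A : Type} [Ring A] (a b : A) : A := a * b - b * a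

/-- The word `u` acts on the vector `v`; the first letter acts first. -/
def act {p : ℕ} {ι V : Type} [AddCommGroup V] [Module (ZMod p) V]
    (f : ι → Module.End (ZMod p) V) (u : List ι) (v : V) : V := u.foldl (fun w y => f y w) v

/-- Iterated commutator `cb (f y_k) (⋯ (cb (f y_2) (cb (f y_1) ν)) ⋯)` for the word
`y_1 ⋯ y_k`. -/
def ad {p : ℕ} {ι V : Type} [AddCommGroup V] [Module (ZMod p) V]
    (f : ι → Module.End (ZMod p) V) (u : List ι) (ν : Module.End (ZMod p) V) :
    Module.End (ZMod p) V := u.foldl (fun μ y => cb (f y) μ) ν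

/-- `Lam f Y ν`: the operator `ν` is in the Lie algebra generated by the operators `f y`,
`y ∈ Y` (the smallest subspace containing them and closed under `cb`). -/
inductive Lam {p : ℕ} {ι V : Type} [AddCommGroup V] [Module (ZMod p) V]
    (f : ι → Module.End (ZMod p) V) (Y : Set ι) : Module.End (ZMod p) V → Prop
  | gen (y : ι) (hy : y ∈ Y) : Lam f Y (f y)
  | zero : Lam f Y 0
  | add (a b : Module.End (ZMod p) V) (ha : Lam f Y a) (hb : Lam f Y b) : Lam f Y (a + b)
  | smul (c : ZMod p) (a : Module.End (ZMod p) V) (ha : Lam f Y a) : Lam f Y (c • a)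
  | lie (a b : Module.End (ZMod p) V) (ha : Lam f Y a) (hb : Lam f Y b) : Lam f Y (cb a b)

/-- `W` is stable under the letters of `Y`. -/
def Stb {p : ℕ} {ι V : Type} [AddCommGroup V] [Module (ZMod p) V]
    (f : ι → Module.End (ZMod p) V) (Y : Set ι) (W : Submodule (ZMod p) V) : Prop :=
  ∀ y ∈ Y, ∀ w ∈ W, f y w ∈ W

/-- Non-adjacent letters commute. -/
def Cmm {p : ℕ} {ι V : Type} [AddCommGroup V] [Module (ZMod p) V]
    (E : ι → ι → Prop) (f : ι → Module.End (ZMod p) V) : Prop :=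
  ∀ i j, ¬ E i j → f i * f j = f j * f i

/-- All symmetrised products of `m` elements of the Lie algebra `Lam f Y` map `W` to `W'`. -/
def NilH {p : ℕ} {ι V : Type} [AddCommGroup V] [Module (ZMod p) V]
    (f : ι → Module.End (ZMod p) V) (m : ℕ) (Y : Set ι) (W W' : Submodule (ZMod p) V) : Prop :=
  ∀ l : Fin m → Module.End (ZMod p) V, (∀ i, Lam f Y (l i)) → ∀ w ∈ W,
    (∑ σ : Equiv.Perm (Fin m), (List.ofFn fun i => l (σ i)).prod) w ∈ W'

/-- The standing hypotheses. -/
def Ctx {p : ℕ} {ι V : Type} [AddCommGroup V] [Module (ZMod p) V] (E : ι → ι → Prop)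
    (f : ι → Module.End (ZMod p) V) (m : ℕ) (Y : Set ι) (W W' : Submodule (ZMod p) V) : Prop :=
  Sy E ∧ Cmm E f ∧ W' ≤ W ∧ Stb f Y W ∧ Stb f Y W' ∧ NilH f m Y W W'

/-- The main property: words whose letters contain `q + 1` letters pairwise at distance `> r`
act as zero, if the symmetrised products of `m` Lie elements are zero. -/
def PP (p m r q : ℕ) : Prop :=
  ∀ (ι : Type) (E : ι → ι → Prop) (V : Type) [AddCommGroup V] [Module (ZMod p) V]
    (f : ι → Module.End (ZMod p) V) (Y : Set ι) (W W' : Submodule (ZMod p) V),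
    Ctx E f m Y W W' → ∀ u : List ι, (∀ i ∈ u, i ∈ Y) → Pk E r (q + 1) (ltr u) →
    ∀ w ∈ W, act f u w ∈ W'

/-- `Λ v + W'`, where `Λ` is the Lie algebra. -/
def Wone {p : ℕ} {ι V : Type} [AddCommGroup V] [Module (ZMod p) V]
    (f : ι → Module.End (ZMod p) V) (Y : Set ι) (v : V) (W' : Submodule (ZMod p) V) :
    Submodule (ZMod p) V :=
  Submodule.span (ZMod p) {z | ∃ ν : Module.End (ZMod p) V, Lam f Y ν ∧ z = ν v} ⊔ W'

/-- The span of the `ν_1 ⋯ ν_j v`, `j ≤ k`, `ν_i` in the Lie algebra, and of `W'`. -/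
def Mf {p : ℕ} {ι V : Type} [AddCommGroup V] [Module (ZMod p) V]
    (f : ι → Module.End (ZMod p) V) (Y : Set ι) (v : V) (W' : Submodule (ZMod p) V) (k : ℕ) :
    Submodule (ZMod p) V :=
  Submodule.span (ZMod p) {z | ∃ l : List (Module.End (ZMod p) V), l.length ≤ k ∧
    (∀ ν ∈ l, Lam f Y ν) ∧ z = l.prod v} ⊔ W'

/-- `Mh 0 = W'`, `Mh (k + 1) = Mf k`. -/
def Mh {p : ℕ} {ι V : Type} [AddCommGroup V] [Module (ZMod p) V]
    (f : ι → Module.End (ZMod p) V) (Y : Set ι) (v : V) (W' : Submodule (ZMod p) V) :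
    ℕ → Submodule (ZMod p) V
  | 0 => W'
  | k + 1 => Mf f Y v W' k

/-- The submodule generated by `W'` and all `act f γ (f x w)`, `γ` a word in letters of `Y` not
adjacent to `x` with `j` letters pairwise at distance `> r`. -/
def Mj {p : ℕ} {ι V : Type} [AddCommGroup V] [Module (ZMod p) V] (E : ι → ι → Prop)
    (f : ι → Module.End (ZMod p) V) (Y : Set ι) (W' : Submodule (ZMod p) V) (r : ℕ) (x : ι)
    (w : V) (j : ℕ) : Submodule (ZMod p) V :=
  Submodule.span (ZMod p) {z | ∃ γ u : List ι, (∀ i ∈ γ, i ∈ Y ∧ ¬ E x i) ∧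
    Pk E r j (ltr γ) ∧ (∀ i ∈ u, i ∈ Y) ∧ z = act f u (act f γ (f x w))} ⊔ W'

/-! ### Combinatorics -/

/-- NRT.  PROOF.  All by induction on `n`. Reflexive: `c = a`. Monotone: a walk of length `≤ n` may
be prolonged by `c = b`. Transitive: induction on `n` for `nr E n b c`. Symmetric: by
transitivity `nr E (1 + n) b a` from `nr E 1 b c` and `nr E n c a`. Last: `c = a`. -/
def StNRT : Prop :=
  ∀ (ι : Type) (E : ι → ι → Prop),
    (∀ n a, nr E n a a) ∧
    (∀ m n a b, m ≤ n → nr E m a b → nr E n a b) ∧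
    (∀ m n a b c, nr E m a b → nr E n b c → nr E (m + n) a c) ∧
    (Sy E → ∀ n a b, nr E n a b → nr E n b a) ∧
    (∀ a b, E a b → nr E 1 a b)

/-- PKU.  PROOF.  (1) Let `P` be the set of `a + b + 1` elements, `P_A` the elements of `P` in `A`,
`P_B` those in `B` (classical filters); `P = P_A ∪ P_B`, so one of them has more than `a` resp.
`b` elements; take a subset of the right cardinality (`Finset.exists_subset_card_eq`).
(2) subset. (3) `nr E r a b → nr E r' a b` by NRT. (4) induction on the list `us` with (1): if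
`us = []` then `T` is empty, contradiction (`P` has at least one element); for `u' :: us`:
`(us.length + 1) * q + 1 = us.length * q + q + 1`; apply (1) with `A` = the letters covered by `us`,
`a = us.length * q`, `B = ltr u'`, `b = q`. (5) `P ⊆ {x}` has at most one element. -/
def StPKU : Prop :=
  ∀ (ι : Type) (E : ι → ι → Prop),
    (∀ (r a b : ℕ) (T A B : Set ι), Pk E r (a + b + 1) T → (∀ i ∈ T, i ∈ A ∨ i ∈ B) →
      Pk E r (a + 1) A ∨ Pk E r (b + 1) B) ∧
    (∀ (r n n' : ℕ) (T T' : Set ι), Pk E r n T → n' ≤ n → T ⊆ T' → Pk E r n' T') ∧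
    (∀ (r r' n : ℕ) (T : Set ι), r ≤ r' → Pk E r' n T → Pk E r n T) ∧
    (∀ (r q : ℕ) (T : Set ι) (us : List (List ι)), Pk E r (us.length * q + 1) T →
      (∀ i ∈ T, ∃ u' ∈ us, i ∈ u') → ∃ u' ∈ us, Pk E r (q + 1) (ltr u')) ∧
    (∀ (r n : ℕ) (T : Set ι) (x : ι), Pk E r (n + 1) T → Pk E r n {i | i ∈ T ∧ i ≠ x})

/-- PKN (cutting a word).  PROOF (from PKU).  (1) `k = 2`, i.e. `Pk E r (a + b) (ltr u)` implies
`u = u₁ ++ u₂` with `Pk E r a (ltr u₁)`, `Pk E r b (ltr u₂)`: if `b = 0` take `u₂ = []`; if `a = 0`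
take `u₁ = []`. Let `a, b ≥ 1`. Let `u₁` be the shortest initial segment of `u` with `Pk E r a (ltr u₁)`
(`u` itself has the property). `u₁ ≠ []`, so `u₁ = u₀ ++ [y]` and `Pk E r a (ltr u₀)` is false.
By PKU (1) applied to `ltr u`, covered by `ltr u₁` and `ltr u₂`, with `a` and `b - 1`: either
`Pk E r (a + 1) (ltr u₁)`, and then (PKU (5), remove `y`) `Pk E r a (ltr u₀)`, contradiction; or
`Pk E r b (ltr u₂)`. (2) Induction on `k`: `(k + 1) * a = a + k * a`. For `k = 0`: `0 * a = 0`; but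
then one wants `u = []`; so the statement is for `k + 1` factors; for one factor take `[u]`. -/
def StPKN : Prop :=
  ∀ (ι : Type) (E : ι → ι → Prop) (r a k : ℕ) (u : List ι), Pk E r ((k + 1) * a) (ltr u) →
    ∃ us : List (List ι), us.length = k + 1 ∧ u = us.flatten ∧ ∀ u' ∈ us, Pk E r a (ltr u')

/-- CHA (connected words have large packings).  PROOF (from NRT).  (1) Claim: for every letter `y` of
`d` and every `t` with `¬ nr E t s y` there is a letter `z` of `d` with `nr E (t + 1) s z` and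
`¬ nr E t s z`. Induction on the position of `y`: let `d = d₁ ++ y :: d₂`; by `Cn` there is `a`,
`a = s` or `a ∈ d₁`, with `E a y`. If `a = s` or, more generally, `nr E t s a`, then
`nr E (t + 1) s y` and `z = y` does it (if `a = s`: `nr E t s s`). Otherwise `a ∈ d₁` and
`¬ nr E t s a`; `a` has a smaller position; use the induction hypothesis.
(2) For `j = 1, …, n` apply (1) with `t = (r + 1) * j - 1` (`¬ nr E t s y` by monotonicity,
since `t ≤ (r + 1) * n`): we get a letter `z_j` of `d` with `nr E ((r + 1) * j) s z_j` and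
`¬ nr E ((r + 1) * j - 1) s z_j`. If `j < j'` and `nr E r z_j z_j'`, then
`nr E ((r + 1) * j + r) s z_j'` and `(r + 1) * j + r ≤ (r + 1) * j' - 1`, contradiction. By the
symmetry of `E` also `¬ nr E r z_j' z_j`. In particular the `z_j` are distinct (`nr E r z z`). So
`P = {z_1, …, z_n}` does it. -/
def StCHA : Prop :=
  ∀ (ι : Type) (E : ι → ι → Prop), Sy E → ∀ (s : ι) (d : List ι), Cn E s d →
    ∀ y ∈ d, ∀ r n : ℕ, ¬ nr E ((r + 1) * n) s y → Pk E r n (ltr d)

/-- PRM (a symmetrised product, ordered by the position of `x`).  PROOF.  A permutation `σ` of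
`Fin (m + 1)` corresponds to the pair `(j, τ)`, `j = σ⁻¹ 0` the position of `0` and `τ` the
permutation of `Fin m` which describes the order of the others. Formally: the map
`(j, τ) ↦ σ` with `σ j = 0`, `σ (j.succAbove i) = (τ i).succ` is a bijection
`Fin (m + 1) × Perm (Fin m) ≃ Perm (Fin (m + 1))`; and for it
`List.ofFn (fun i => (Fin.cons x d) (σ i))` is the list `L = List.ofFn (fun i => d (τ i))` with `x`
inserted at the position `j`, i.e. `L.take j ++ x :: L.drop j`. (Alternatively, induction with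
`Equiv.Perm.decomposeFin`.) -/
def StPRM : Prop :=
  ∀ (A : Type) [Ring A] (m : ℕ) (x : A) (d : Fin m → A),
    ∑ σ : Equiv.Perm (Fin (m + 1)),
      (List.ofFn fun i => (Fin.cons x d : Fin (m + 1) → A) (σ i)).prod =
    ∑ j ∈ Finset.range (m + 1), ∑ τ : Equiv.Perm (Fin m),
      ((List.ofFn fun i => d (τ i)).take j).prod * x * ((List.ofFn fun i => d (τ i)).drop j).prod

/-! ### The Lie algebra generated by the letters -/

/-- LST (routine facts).  PROOF.  (1) Induction on the predicate `Lam`. (2) The same. (3) The set of all `d`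
with `d W' ⊆ W'` and `d v ∈ W'` is a Lie subalgebra: `cb a b v = a (b v) - b (a v)`.
(4) The set of all `d` commuting with `a` is a Lie subalgebra. (5) Induction on the word: every
`f y` and `ν` are in the subalgebra. (6), (7) `List.foldl_append`; (8) induction. (9) Induction on
the word: `act` is additive and `f z (ν v) = (cb (f z) ν) v + ν (f z v)`, `f z v ∈ W'` and
`ν W' ⊆ W'` by (1); words of `Z` preserve `W'`. -/
def StLST : Prop :=
  ∀ (p : ℕ) (ι V : Type) [AddCommGroup V] [Module (ZMod p) V] (f : ι → Module.End (ZMod p) V)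
    (Y : Set ι),
    (∀ W : Submodule (ZMod p) V, Stb f Y W → ∀ l : Module.End (ZMod p) V, Lam f Y l → ∀ w ∈ W, l w ∈ W) ∧
    (∀ Z : Set ι, Z ⊆ Y → ∀ l : Module.End (ZMod p) V, Lam f Z l → Lam f Y l) ∧
    (∀ (W' : Submodule (ZMod p) V) (v : V), Stb f Y W' → (∀ z ∈ Y, f z v ∈ W') →
      ∀ d : Module.End (ZMod p) V, Lam f Y d → d v ∈ W') ∧
    (∀ a : Module.End (ZMod p) V, (∀ z ∈ Y, a * f z = f z * a) → ∀ d : Module.End (ZMod p) V, Lam f Y d → a * d = d * a) ∧
    (∀ (u : List ι) (ν : Module.End (ZMod p) V), (∀ i ∈ u, i ∈ Y) → Lam f Y ν →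
      Lam f Y (ad f u ν)) ∧
    (∀ (u u' : List ι) (v : V), act f (u ++ u') v = act f u' (act f u v)) ∧
    (∀ (u u' : List ι) (ν : Module.End (ZMod p) V), ad f (u ++ u') ν = ad f u' (ad f u ν)) ∧
    (∀ (W : Submodule (ZMod p) V), Stb f Y W → ∀ u : List ι, (∀ i ∈ u, i ∈ Y) →
      ∀ w ∈ W, act f u w ∈ W) ∧
    (∀ (Z : Set ι) (W' : Submodule (ZMod p) V) (v : V), Z ⊆ Y → Stb f Y W' →
      (∀ z ∈ Z, f z v ∈ W') → ∀ u : List ι, (∀ i ∈ u, i ∈ Z) → ∀ ν : Module.End (ZMod p) V,
      Lam f Y ν → (ad f u ν) v - act f u (ν v) ∈ W')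

/-- NLV.  PROOF (from PRM, LST).  `Z ⊆ Y`, `f z v ∈ W'` for `z ∈ Z`; let `W₁ = Wone f Y v W'`.
`W' ≤ W₁ ≤ W` (`ν v ∈ W` by LST (1)). `W₁` is `Z`-stable: `f z (ν v) = (cb (f z) ν) v + ν (f z v)`,
`(cb (f z) ν) ∈ Lam f Y`, `f z v ∈ W'` and `ν W' ⊆ W'`. `NilH f m Z W₁ W'`: let `d i ∈ Lam f Z`. On `W'`
everything is clear (LST (1)). Let `w = ν v` (the elements `ν v` form a submodule, so it is enough
to treat `w = ν v + w'`). `NilH f (m + 1) Y W W'` for `Fin.cons ν d` applied to `v ∈ W` gives, with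
PRM, `∑_{j ≤ m} ∑_τ (take j) * ν * (drop j) v ∈ W'`. For `j < m` the list `drop j` is not empty and
its last element `d (τ (m-1))` maps `v` to `W'` (LST (3), because `f z v ∈ W'` for `z ∈ Z`), and the
others and `ν` preserve `W'`: the term is in `W'`. For `j = m` the term is
`∑_τ (∏ d (τ i)) (ν v)`. So the latter is in `W'`. -/
def StNLV : Prop :=
  ∀ (p m : ℕ) [Fact p.Prime] (ι : Type) (E : ι → ι → Prop) (V : Type) [AddCommGroup V]
    [Module (ZMod p) V] (f : ι → Module.End (ZMod p) V) (Y Z : Set ι)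
    (W W' : Submodule (ZMod p) V) (v : V), Ctx E f (m + 1) Y W W' → v ∈ W → Z ⊆ Y →
    (∀ z ∈ Z, f z v ∈ W') → Ctx E f m Z (Wone f Y v W') W' ∧ Wone f Y v W' ≤ W

/-- NLX.  PROOF (from PRM, LST).  `C = {y ∈ Y | ¬ E x y}`, `Wx = W.map (f x) ⊔ W'`. `Wx ≤ W` and `Wx` is
`C`-stable because `f y (f x w) = f x (f y w)` for `y ∈ C` (`Cmm`). `NilH f m C Wx W'`: let
`d i ∈ Lam f C`; `f x` commutes with all `d i` (LST (4)). `NilH f (m + 1) Y W W'` for
`Fin.cons (f x) d` applied to `w ∈ W` and PRM: every inner sum over `τ` equals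
`∑_τ (∏ d (τ i)) (f x w)`, because `x` may be moved to the right; so
`(m + 1) • ∑_τ (∏ d (τ i)) (f x w) ∈ W'`. Since `0 < m + 1 < p`, `m + 1` is invertible modulo `p`,
and `∑_τ (∏ d (τ i)) (f x w) ∈ W'`. On `W'`: LST (1). -/
def StNLX : Prop :=
  ∀ (p m : ℕ) [Fact p.Prime] (ι : Type) (E : ι → ι → Prop) (V : Type) [AddCommGroup V]
    [Module (ZMod p) V] (f : ι → Module.End (ZMod p) V) (Y : Set ι)
    (W W' : Submodule (ZMod p) V) (x : ι), m + 1 < p → Ctx E f (m + 1) Y W W' → x ∈ Y →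
    Ctx E f m {y | y ∈ Y ∧ ¬ E x y} (W.map (f x) ⊔ W') W' ∧ W.map (f x) ⊔ W' ≤ W

/-! ### Localised vectors -/

/-- FIL.  PROOF (from LST).  (1), (2), (3) clear (`l = []`, `[].prod = 1`; `l.prod v ∈ W` by LST (1)).
(4) `ν (l.prod v) = (ν :: l).prod v`, and `ν W' ⊆ W'`. (5) By `List.Perm` induction in the form:
for all lists `a`, `b` of elements of `Lam f Y` and `l ~ l'`, with
`(a ++ l ++ b).length ≤ k + 1`: `(a ++ l ++ b).prod v - (a ++ l' ++ b).prod v ∈ Mf f Y v W' k`
(`nil`: zero; `cons x`: use `a ++ [x]`; `swap x y`: the difference is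
`± (a ++ [cb x y] ++ b).prod v`, a list of length one less, `cb x y ∈ Lam f Y`; `trans`: add).
(6) by (4). -/
def StFIL : Prop :=
  ∀ (p : ℕ) (ι V : Type) [AddCommGroup V] [Module (ZMod p) V] (f : ι → Module.End (ZMod p) V)
    (Y : Set ι) (W W' : Submodule (ZMod p) V) (v : V), W' ≤ W → Stb f Y W → Stb f Y W' → v ∈ W →
    (∀ k k' : ℕ, k ≤ k' → Mf f Y v W' k ≤ Mf f Y v W' k') ∧
    (∀ k : ℕ, W' ≤ Mf f Y v W' k ∧ Mf f Y v W' k ≤ W) ∧
    (v ∈ Mf f Y v W' 0) ∧
    (∀ (k : ℕ) (ν : Module.End (ZMod p) V), Lam f Y ν → ∀ w ∈ Mf f Y v W' k,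
      ν w ∈ Mf f Y v W' (k + 1)) ∧
    (∀ (k : ℕ) (l l' : List (Module.End (ZMod p) V)), (∀ ν ∈ l, Lam f Y ν) → l.Perm l' →
      l.length ≤ k + 1 → l.prod v - l'.prod v ∈ Mf f Y v W' k) ∧
    (∀ (k : ℕ) (l : List (Module.End (ZMod p) V)), (∀ ν ∈ l, Lam f Y ν) →
      ∀ w ∈ Mf f Y v W' k, l.prod w ∈ Mf f Y v W' (k + l.length))

/-- COL (collapse).  PROOF (from FIL).  Show `l.prod v ∈ Mf f Y v W' m` for all lists `l` of elements
of `Lam f Y`, by strong induction on `l.length`. If `l.length ≤ m` clear. Otherwise `l = a ++ b` with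
`b.length = m + 1`, `b = List.ofFn g`. For every permutation `σ` of `Fin (m + 1)` the list
`List.ofFn (fun i => g (σ i))` is a permutation of `b`, so by FIL (5) its product applied to `v` is
congruent to `b.prod v` modulo `Mf m`. The sum over `σ` is in `W'` by `NilH f (m + 1) Y W W'`. So
`(m + 1)! • b.prod v ∈ Mf m`, and `b.prod v ∈ Mf m`, because `m + 1 < p`, so `(m + 1)!` is invertible
modulo `p`. Hence `l.prod v = a.prod (b.prod v)` is in `Mf (m + a.length)` (FIL (6)), and this is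
contained in `Mf m` by the induction hypothesis (lists of length `≤ m + a.length < l.length`). -/
def StCOL : Prop :=
  ∀ (p m : ℕ) [Fact p.Prime] (ι : Type) (E : ι → ι → Prop) (V : Type) [AddCommGroup V]
    [Module (ZMod p) V] (f : ι → Module.End (ZMod p) V) (Y : Set ι)
    (W W' : Submodule (ZMod p) V) (v : V), m + 1 < p → Ctx E f (m + 1) Y W W' → v ∈ W →
    ∀ k : ℕ, Mf f Y v W' k ≤ Mf f Y v W' m

/-- DSA (distribution of a word over the factors).  PROOF (from LST).  Induction on `u` from the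
right (`List.reverseRecOn`). `u = []`: `us = List.replicate l.length []`. Step `u ++ [z]`: by
induction `act f u (l.prod v)` is a combination of elements `(List.zipWith (ad f) us l).prod v` and
an element of `W'`; apply `f z`. `f z W' ⊆ W'`. For a list `L = [L_1, …, L_k]` of elements of
`Lam f Y`: `f z (L.prod v) = ∑_i (L with L_i replaced by cb (f z) L_i).prod v + L.prod (f z v)`
(induction on `L`), and `L.prod (f z v) ∈ W'`. With `L = List.zipWith (ad f) us l`,
`cb (f z) (ad f u_i l_i) = ad f (u_i ++ [z]) l_i`: the list `us` with `u_i` replaced by `u_i ++ [z]`. -/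
def StDSA : Prop :=
  ∀ (p : ℕ) (ι V : Type) [AddCommGroup V] [Module (ZMod p) V] (f : ι → Module.End (ZMod p) V)
    (Y Z : Set ι) (W' : Submodule (ZMod p) V) (v : V), Z ⊆ Y → Stb f Y W' →
    (∀ z ∈ Z, f z v ∈ W') → ∀ l : List (Module.End (ZMod p) V), (∀ ν ∈ l, Lam f Y ν) →
    ∀ u : List ι, (∀ i ∈ u, i ∈ Z) →
    act f u (l.prod v) ∈ Submodule.span (ZMod p) {z | ∃ us : List (List ι),
      us.length = l.length ∧ (∀ u' ∈ us, ∀ i ∈ u', i ∈ u) ∧ (∀ i ∈ u, ∃ u' ∈ us, i ∈ u') ∧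
      z = (List.zipWith (ad f) us l).prod v} ⊔ W'

/-- DSB.  PROOF (from LST, FIL, DSA, PKU).  `hK` is the hypothesis that words of `Z` with `q + 1` far
letters map `Wone f Y v W'` to `W'`. Let `u` be a word of `Z` with `Pk E r (k * q + 1) (ltr u)`; it
is not empty. `Mh (k+1) = Mf k`. On `W'` clear. Let `w = l.prod v`, `l.length ≤ k`. Case
`l.length < k`: by DSA (the new lists have the same length, elements in `Lam f Y` by LST (5))
`act f u w ∈ Mf (k - 1) = Mh k`. Case `k = 0`, `l = []`: by DSA all `us` are empty, but `u` has a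
letter, which is in no `u'`; so the spanning set is empty and `act f u v ∈ W'`. Case
`l.length = k ≥ 1`: consider a generator given by `us`. By PKU (4) there is an index `i` with
`Pk E r (q + 1) (ltr (us i))`. Then `(ad f (us i) (l i)) v ∈ W'`: by LST (9) it is congruent modulo
`W'` to `act f (us i) ((l i) v)`, which is in `W'` by `hK`. By FIL (5) we may permute the list
`List.zipWith (ad f) us l` modulo `Mf (k - 1)` so that this element becomes the last one; then the
product applied to `v` is in `W'`. -/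
def StDSB : Prop :=
  ∀ (p : ℕ) (ι : Type) (E : ι → ι → Prop) (V : Type) [AddCommGroup V]
    [Module (ZMod p) V] (f : ι → Module.End (ZMod p) V) (Y Z : Set ι)
    (W W' : Submodule (ZMod p) V) (v : V) (r q : ℕ), W' ≤ W → Stb f Y W → Stb f Y W' → v ∈ W →
    Z ⊆ Y → (∀ z ∈ Z, f z v ∈ W') →
    (∀ u : List ι, (∀ i ∈ u, i ∈ Z) → Pk E r (q + 1) (ltr u) →
      ∀ w ∈ Wone f Y v W', act f u w ∈ W') →
    ∀ (k : ℕ) (u : List ι), (∀ i ∈ u, i ∈ Z) → Pk E r (k * q + 1) (ltr u) →
    ∀ w ∈ Mh f Y v W' (k + 1), act f u w ∈ Mh f Y v W' k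

/-- KIL.  PROOF (from PKU, PKN, LST, DSB).  By PKN the word is a product of `m + 1` factors `u'` with
`Pk E r (m * q + 1) (ltr u')`, hence with `Pk E r (k * q + 1) (ltr u')` for all `k ≤ m`. By DSB the
first factor maps `Mf m = Mh (m + 1)` to `Mh m`, the next one `Mh m` to `Mh (m - 1)`, and so on;
after `m + 1` factors we are in `Mh 0 = W'`. -/
def StKIL : Prop :=
  ∀ (p m : ℕ) (ι : Type) (E : ι → ι → Prop) (V : Type) [AddCommGroup V]
    [Module (ZMod p) V] (f : ι → Module.End (ZMod p) V) (Y Z : Set ι)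
    (W W' : Submodule (ZMod p) V) (v : V) (r q : ℕ), W' ≤ W → Stb f Y W → Stb f Y W' → v ∈ W →
    Z ⊆ Y → (∀ z ∈ Z, f z v ∈ W') →
    (∀ u : List ι, (∀ i ∈ u, i ∈ Z) → Pk E r (q + 1) (ltr u) →
      ∀ w ∈ Wone f Y v W', act f u w ∈ W') →
    ∀ u : List ι, (∀ i ∈ u, i ∈ Z) → Pk E r ((m + 1) * (m * q + 1)) (ltr u) →
    ∀ w ∈ Mf f Y v W' m, act f u w ∈ W'

/-- BRK.  PROOF (from LST, PKU).  (1) For every word `d`, operator `ν` and vector `w`: `(ad f d ν) w`
is in the span of the elements `act f d₂ (ν (act f d₁ w))`, where the letters of `d₁`, `d₂` are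
letters of `d` and every letter of `d` is a letter of `d₁` or of `d₂`. Induction on `d` from the
right: `ad f (d ++ [z]) ν = cb (f z) (ad f d ν)`, and `(cb (f z) μ) w = f z (μ w) - μ (f z w)`; for the first
term replace `d₂` by `d₂ ++ [z]`; for the second apply the induction hypothesis to the vector
`f z w`: `act f d₁ (f z w) = act f (z :: d₁) w`.
(2) `M` is a submodule stable under the letters of `Y` such that words of `Z` with `Q` far letters
map `M` to `W'`; `s ∈ Y`. Since `2 * Q - 1 = (Q - 1) + (Q - 1) + 1`, PKU (1) gives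
`Pk E r Q (ltr d₁)` or `Pk E r Q (ltr d₂)`. In the first case `act f d₁ w ∈ W'`, and the rest
preserves `W'`; in the second case `f s (act f d₁ w) ∈ M` and `act f d₂` maps it to `W'`. -/
def StBRK : Prop :=
  ∀ (p : ℕ) (ι : Type) (E : ι → ι → Prop) (V : Type) [AddCommGroup V]
    [Module (ZMod p) V] (f : ι → Module.End (ZMod p) V) (Y Z : Set ι)
    (M W' : Submodule (ZMod p) V) (r Q : ℕ), 1 ≤ Q → Stb f Y M → Stb f Y W' → Z ⊆ Y →
    (∀ u : List ι, (∀ i ∈ u, i ∈ Z) → Pk E r Q (ltr u) → ∀ w ∈ M, act f u w ∈ W') →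
    ∀ s ∈ Y, ∀ d : List ι, (∀ i ∈ d, i ∈ Z) → Pk E r (2 * Q - 1) (ltr d) →
    ∀ w ∈ M, (ad f d (f s)) w ∈ W'

/-- CON.  PROOF (from LST, CHA).  By CHA it is enough that `Cn E s d`. Let `d = d₁ ++ y :: d₂` and
suppose that no `a` with `a = s` or `a ∈ d₁` satisfies `E a y`. Then `f y` commutes with `f s` and
all `f a`, `a ∈ d₁` (`Cmm`), hence with every element of `Lam f ({s} ∪ ltr d₁)` (LST (4)), in
particular with `ad f d₁ (f s)` (LST (5)). So `ad f (d₁ ++ [y]) (f s) = cb (f y) (ad f d₁ (f s)) = 0`, and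
`ad f d (f s) = ad f d₂ 0 = 0`, contradiction. -/
def StCON : Prop :=
  ∀ (p : ℕ) (ι : Type) (E : ι → ι → Prop) (V : Type) [AddCommGroup V]
    [Module (ZMod p) V] (f : ι → Module.End (ZMod p) V), Sy E → Cmm E f →
    ∀ (s : ι) (d : List ι), ad f d (f s) ≠ 0 → ∀ y ∈ d, ∀ r n : ℕ,
    ¬ nr E ((r + 1) * n) s y → Pk E r n (ltr d)

/-- EXP.  PROOF (from LST).  Induction on `w` from the right. `w = []`: `ss = us = []`, `[].prod = 1`.
Step `w ++ [y]`: `act f (w ++ [y]) v = f y (act f w v)`; `f y W' ⊆ W'`; let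
`L = List.zipWith (fun u s => ad f u (f s)) us ss`. If `y ∈ S`: `f y (L.prod v) = (f y :: L).prod v`,
which belongs to `y :: ss`, `[] :: us` (`ad f [] (f y) = f y`). If `y ∉ S`:
`f y (L.prod v) = ∑_i (L with L_i replaced by cb (f y) L_i).prod v + L.prod (f y v)` (induction on the
list), `cb (f y) (ad f u_i (f s_i)) = ad f (u_i ++ [y]) (f s_i)`, `f y v ∈ W'`, and the elements of `L` are in
`Lam f Y`, so they preserve `W'`. (If `L = []` only the last term is there.) -/
def StEXP : Prop :=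
  ∀ (p : ℕ) (ι V : Type) [AddCommGroup V] [Module (ZMod p) V] (f : ι → Module.End (ZMod p) V)
    (Y S : Set ι) (W' : Submodule (ZMod p) V) (v : V), Stb f Y W' →
    (∀ z ∈ Y, z ∉ S → f z v ∈ W') → ∀ w : List ι, (∀ i ∈ w, i ∈ Y) →
    act f w v ∈ Submodule.span (ZMod p) {z | ∃ (ss : List ι) (us : List (List ι)),
      us.length = ss.length ∧ (∀ s ∈ ss, s ∈ Y ∧ s ∈ S) ∧
      (∀ u' ∈ us, ∀ i ∈ u', i ∈ Y ∧ i ∉ S) ∧ (∀ i ∈ w, i ∈ S ∨ ∃ u' ∈ us, i ∈ u') ∧
      z = (List.zipWith (fun u s => ad f u (f s)) us ss).prod v} ⊔ W'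

/-- LOC (localised vectors).  PROOF (from NRT, LST, NLV, FIL, COL, KIL, BRK, CON, EXP).  Let
`Z = {i ∈ Y | i ∉ S}`, `M = Mf f Y v W' m`, `Q = (m + 1) * (m * q + 1)`. By NLV and `PP p m r q` words
of `Z` with `q + 1` far letters map `Wone f Y v W'` to `W'`; so KIL applies: words of `Z` with `Q` far
letters map `M` to `W'`. By FIL (4) and COL, `M` is stable under `Lam f Y`, in particular `Stb f Y M`;
`v ∈ M`. By EXP it is enough to treat `z = L.prod v`, `L = List.zipWith (fun u s => ad f u (f s)) us ss`.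
The letter `y` is not in `S` (otherwise `nr E _ y y`), so `y ∈ us i` for some `i`. Let `s = ss i` and
`b = ad f (us i) (f s)`, an element of `L`: `L = L₁ ++ b :: L₂`. If `b = 0`, `L.prod v = 0`. If
`b ≠ 0`, CON gives `Pk E r (2 * Q - 1) (ltr (us i))` and BRK gives `b M ⊆ W'`. Now
`L₂.prod v ∈ M`, `b (L₂.prod v) ∈ W'`, and the elements of `L₁` are in `Lam f Y`, so they preserve
`W'`. -/
def StLOC : Prop :=
  ∀ (p m r q : ℕ) [Fact p.Prime], m + 1 < p → PP p m r q →
    ∀ (ι : Type) (E : ι → ι → Prop) (V : Type) [AddCommGroup V]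
    [Module (ZMod p) V] (f : ι → Module.End (ZMod p) V) (Y S : Set ι)
    (W W' : Submodule (ZMod p) V) (v : V), Ctx E f (m + 1) Y W W' → v ∈ W →
    (∀ z ∈ Y, z ∉ S → f z v ∈ W') → ∀ w : List ι, (∀ i ∈ w, i ∈ Y) → ∀ y ∈ w,
    (∀ s ∈ S, s ∈ Y → ¬ nr E ((r + 1) * (2 * ((m + 1) * (m * q + 1)) - 1)) s y) →
    act f w v ∈ W'

/-! ### The induction step -/

/-- MJD.  PROOF (from LST, PKU, NLX).  (1) PKU (2). (2) `f y (act f u z) = act f (u ++ [y]) z`, and
`f y W' ⊆ W'`. (3) `act f u (act f γ (f x w)) ∈ W` by LST (8). (4) By NLX and `PP p m r q` (applied to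
`C = {y ∈ Y | ¬ E x y}` and `W.map (f x) ⊔ W'`, `W'`), `act f γ (f x w) ∈ W'` if
`Pk E r (q + 1) (ltr γ)`; and words of `Y` preserve `W'`. (5) `γ = []`, `Pk E r 0 (ltr [])`
(`P = ∅`). (6) From (2), (3) and `W' ≤ Mj j`. (7) `γ ++ [z]` and `u = []`: if `P ⊆ ltr γ` has `j`
elements pairwise at distance `> r` then so has `insert z P`, `j + 1` elements (`z ∉ P` because
`nr E r z z`; the symmetry of `nr`, NRT). -/
def StMJD : Prop :=
  ∀ (p m r q : ℕ) [Fact p.Prime], m + 1 < p → PP p m r q →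
    ∀ (ι : Type) (E : ι → ι → Prop) (V : Type) [AddCommGroup V]
    [Module (ZMod p) V] (f : ι → Module.End (ZMod p) V) (Y : Set ι)
    (W W' : Submodule (ZMod p) V) (x : ι) (w : V), Ctx E f (m + 1) Y W W' → x ∈ Y → w ∈ W →
    (∀ j, Mj E f Y W' r x w (j + 1) ≤ Mj E f Y W' r x w j) ∧
    (∀ j, Stb f Y (Mj E f Y W' r x w j)) ∧
    (∀ j, W' ≤ Mj E f Y W' r x w j ∧ Mj E f Y W' r x w j ≤ W) ∧
    (Mj E f Y W' r x w (q + 1) ≤ W') ∧
    (f x w ∈ Mj E f Y W' r x w 0) ∧
    (∀ j, Ctx E f (m + 1) Y W (Mj E f Y W' r x w j)) ∧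
    (∀ (j : ℕ) (γ : List ι) (z : ι), (∀ i ∈ γ, i ∈ Y ∧ ¬ E x i) → z ∈ Y → ¬ E x z →
      (∀ g ∈ γ, ¬ nr E r g z) → Pk E r j (ltr γ) →
      f z (act f γ (f x w)) ∈ Mj E f Y W' r x w (j + 1))

/-- STP.  PROOF (from NRT, PKU, LST, LOC, MJD).  Let `ρ₀ = (r + 1) * (2 * Q - 1)`,
`Q = (m + 1) * (m * q + 1)`, `ρ₁ = ρ₀ + 2 * r + 1`. Let `z = act f u v`, `v = act f γ (f x w)`, be a
generator of `Mj j`; `act f w' z = act f (u ++ w') v`. If `Pk E r (j + 1) (ltr γ)` then
`v ∈ Mj (j + 1)` and we are done by stability. Otherwise let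
`S = {y | E x y} ∪ {y | ∃ g ∈ γ, nr E r g y}`. For `z ∈ Y`, `z ∉ S`: `f z v ∈ Mj (j + 1)` by MJD (7).
Let `P ⊆ ltr γ` be a set of maximal cardinality of letters pairwise at distance `> r`; it has at most
`j ≤ q` elements, and every `g ∈ γ` satisfies `nr E r a g` for some `a ∈ P` (maximality; if
`g ∈ P` take `a = g`). Let `P' ⊆ ltr w'` have `q + 2` elements pairwise at distance `> 2 * ρ₁`.
Claim: some `y ∈ P'` satisfies `¬ nr E ρ₀ s y` for all `s ∈ S`. Otherwise every `y ∈ P'` has a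
centre `c(y) ∈ {x} ∪ P` with `nr E ρ₁ c(y) y`: if `nr E ρ₀ s y` with `E x s`, take `c(y) = x`
(`1 + ρ₀ ≤ ρ₁`); if `nr E r g s`, `g ∈ γ`, take `a ∈ P` with `nr E r a g`. By the pigeonhole
principle (`{x} ∪ P` has at most `q + 1` elements) two distinct `y, y' ∈ P'` have the same centre,
so `nr E (2 * ρ₁) y y'`, contradiction. Apply LOC with `W' := Mj (j + 1)` (MJD (6)), the vector `v`,
the word `u ++ w'` and this letter `y`. -/
def StSTP : Prop :=
  ∀ (p m r q : ℕ) [Fact p.Prime], m + 1 < p → PP p m r q →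
    ∀ (ι : Type) (E : ι → ι → Prop) (V : Type) [AddCommGroup V]
    [Module (ZMod p) V] (f : ι → Module.End (ZMod p) V) (Y : Set ι)
    (W W' : Submodule (ZMod p) V) (x : ι) (w : V), Ctx E f (m + 1) Y W W' → x ∈ Y → w ∈ W →
    ∀ (j : ℕ) (w' : List ι), j ≤ q → (∀ i ∈ w', i ∈ Y) →
    Pk E (2 * ((r + 1) * (2 * ((m + 1) * (m * q + 1)) - 1) + 2 * r + 1)) (q + 2) (ltr w') →
    ∀ z ∈ Mj E f Y W' r x w j, act f w' z ∈ Mj E f Y W' r x w (j + 1)

/-- PPS (the induction step).  PROOF (from PKU, PKN, LST, MJD, STP).  Let `N = (q + 1) * (q + 2)` and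
`u` a word with `N + 1` letters pairwise at distance `> 2 * ρ₁`. `u ≠ []`; `u = x :: u'`. By PKU (5)
(remove `x`) and PKU (2), `Pk E (2 * ρ₁) N (ltr u')`. By PKN (`k = q`, `a = q + 2`), `u'` is the
concatenation of `q + 1` words with `Pk E (2 * ρ₁) (q + 2)`. `act f u w = act f u' (f x w)`,
`f x w ∈ Mj 0`; by STP the successive factors map `Mj 0` to `Mj 1`, …, to `Mj (q + 1) ≤ W'`. -/
def StPPS : Prop :=
  ∀ (p m r q : ℕ) [Fact p.Prime], m + 1 < p → PP p m r q →
    PP p (m + 1) (2 * ((r + 1) * (2 * ((m + 1) * (m * q + 1)) - 1) + 2 * r + 1))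
      ((q + 1) * (q + 2))

/-- LIE (the theorem on Lie algebras of operators).  PROOF (from LST, PPS).  Induction on `m`.
`m = 0`: `NilH f 0 Y W W'` says that `W ≤ W'` (`Equiv.Perm (Fin 0)` has one element, the empty
product is `1`); so `act f u w ∈ W ≤ W'` (LST (8)); `r = q = 0`. Step: PPS. -/
def StLIE : Prop :=
  ∀ (p : ℕ) [Fact p.Prime] (m : ℕ), m < p → ∃ r q : ℕ, PP p m r q

end Pool.Agent.Helper45.LGB
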