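import Pool.Agent.Helper45.LGB.St
import Pool.Agent.Helper83.RB.St

set_option autoImplicit false

/-!
Project LGB, second part: groups of prime exponent. The associated graded space, the linearised
Engel identity (by a cube construction), and the theorem. The docstring of every statement
contains its complete proof.

`(⊤ : Subgroup G).lowerCentralSeries k` is `gamma_{k+1}(G)` of the books; commutators are Mathlib
commutators `⁅g, h⁆ = g * h * g⁻¹ * h⁻¹`.
-/

namespace Pool.Agent.Helper45.LGB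

open scoped BigOperators

open scoped commutatorElement

open Pool.Agent.Helper83.RB (StLCC StPOL)

/-- `gm G k = gamma_k(G)` for `k ≥ 1`, and `gm G 0 = G`. -/
def gm (G : Type) [Group G] (k : ℕ) : Subgroup G := (⊤ : Subgroup G).lowerCentralSeries (k - 1)

/-- Iterated commutator `⁅⋯⁅⁅v, g_1⁆, g_2⁆, ⋯, g_k⁆`. -/
def ic {G : Type} [Group G] (v : G) (u : List G) : G := u.foldl (fun a g => ⁅a, g⁆) v

/-- The cube (function on the subsets of `Fin n`) with the value `h` on the sets containing `S` and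
`1` elsewhere. -/
def fc {n : ℕ} {G : Type} [Group G] (S : Finset (Fin n)) (h : G) : Finset (Fin n) → G :=
  fun T => if S ⊆ T then h else 1

/-- The weight of a set. -/
def wt {n : ℕ} (ω : Fin n → ℕ) (S : Finset (Fin n)) : ℕ := ∑ j ∈ S, ω j

/-- The group of cubes generated by the `fc S h`, `h` of weight `t + wt ω S`. -/
def Cb {n : ℕ} {G : Type} [Group G] (ω : Fin n → ℕ) (t : ℕ) :
    Subgroup (Finset (Fin n) → G) :=
  Subgroup.closure {F | ∃ (S : Finset (Fin n)) (h : G), h ∈ gm G (t + wt ω S) ∧ F = fc S h}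

/-- GMA.  PROOF (from StLCC).  (1) If `a, b ≥ 1`: StLCC with `i = a - 1`, `j = b - 1`,
`i + j + 1 = a + b - 1`. If `a = 0`: `gm G 0 = ⊤`, and `⁅⊤, gm G b⁆ ≤ gm G b` because `gm G b` is
normal; similarly `b = 0`. (2) The lower central series is antitone. (3) Induction on `u` from the
right: `ic v ((u ++ [j]).map g) = ⁅ic v (u.map g), g j⁆`; use (1). -/
def StGMA : Prop :=
  ∀ (G : Type) [Group G],
    (∀ a b : ℕ, ⁅gm G a, gm G b⁆ ≤ gm G (a + b)) ∧
    (∀ a b : ℕ, a ≤ b → gm G b ≤ gm G a) ∧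
    (∀ (n a : ℕ) (ω : Fin n → ℕ) (g : Fin n → G) (v : G), (∀ j, g j ∈ gm G (ω j)) →
      v ∈ gm G a → ∀ u : List (Fin n), ic v (u.map g) ∈ gm G (a + (u.map ω).sum))

/-- BIL (the commutator is bilinear modulo the next term).  PROOF (from StLCC).  `Γ k` = the lower
central series. (1), (2) are StLCC on elements. (3) `⁅a * b, g⁆ = a * ⁅b, g⁆ * a⁻¹ * ⁅a, g⁆`, and
`a * x * a⁻¹ = ⁅a, x⁆ * x`; with `x = ⁅b, g⁆ ∈ Γ (k + w + 1)`, `⁅a, x⁆ ∈ Γ (2 * k + w + 2) ≤ Γ (k + w + 2)`,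
and `x`, `⁅a, g⁆` commute modulo `Γ (2 * k + 2 * w + 3) ≤ Γ (k + w + 2)`. (4) The same with
`⁅a, g * h⁆ = ⁅a, g⁆ * (g * ⁅a, h⁆ * g⁻¹)`. (5) (Jacobi) For all `a, x, y`:
`⁅a, x * y⁆ = ⁅a, x⁆ * ⁅⁅a, y⁆, x⁆⁻¹ * ⁅a, y⁆` (because `x * b * x⁻¹ = ⁅b, x⁆⁻¹ * b`). Let `c = ⁅h, g⁆`, so
`h * g = c * (g * h)`. Compute `⁅a, h * g⁆` in two ways:
`⁅a, h⁆ * ⁅⁅a, g⁆, h⁆⁻¹ * ⁅a, g⁆ = ⁅a, c⁆ * ⁅⁅a, g * h⁆, c⁆⁻¹ * (⁅a, g⁆ * ⁅⁅a, h⁆, g⁆⁻¹ * ⁅a, h⁆)`.
Let `N = Γ (k + w + w' + 3)`, a normal subgroup. Modulo `N` the elements `⁅a, g⁆ ∈ Γ (k + w + 1)` and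
`⁅a, h⁆ ∈ Γ (k + w' + 1)` commute, the triple commutators and `⁅a, c⁆` (all in
`Γ (k + w + w' + 2)`) are central modulo `N` (`⁅Γ i, ⊤⁆ = Γ (i + 1)`), and
`⁅⁅a, g * h⁆, c⁆ ∈ ⁅Γ (k + 1), Γ (w + w' + 1)⁆ ≤ N`: `⁅a, g * h⁆ ∈ Γ (k + 1)` and
`k + 1 + (w + w' + 1) + 1 = k + w + w' + 3`. Hence `⁅⁅a, g⁆, h⁆⁻¹ ≡ ⁅a, c⁆ * ⁅⁅a, h⁆, g⁆⁻¹` modulo
`N`. -/
def StBIL : Prop :=
  ∀ (G : Type) [Group G],
    (∀ k w : ℕ, ∀ a ∈ (⊤ : Subgroup G).lowerCentralSeries k,
      ∀ g ∈ (⊤ : Subgroup G).lowerCentralSeries w,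
      ⁅a, g⁆ ∈ (⊤ : Subgroup G).lowerCentralSeries (k + w + 1)) ∧
    (∀ k : ℕ, ∀ a ∈ (⊤ : Subgroup G).lowerCentralSeries (k + 1),
      a ∈ (⊤ : Subgroup G).lowerCentralSeries k) ∧
    (∀ k w : ℕ, ∀ a ∈ (⊤ : Subgroup G).lowerCentralSeries k,
      ∀ b ∈ (⊤ : Subgroup G).lowerCentralSeries k,
      ∀ g ∈ (⊤ : Subgroup G).lowerCentralSeries w,
      ⁅a * b, g⁆ * (⁅a, g⁆ * ⁅b, g⁆)⁻¹ ∈ (⊤ : Subgroup G).lowerCentralSeries (k + w + 2)) ∧
    (∀ k w : ℕ, ∀ a ∈ (⊤ : Subgroup G).lowerCentralSeries k,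
      ∀ g ∈ (⊤ : Subgroup G).lowerCentralSeries w,
      ∀ h ∈ (⊤ : Subgroup G).lowerCentralSeries w,
      ⁅a, g * h⁆ * (⁅a, g⁆ * ⁅a, h⁆)⁻¹ ∈ (⊤ : Subgroup G).lowerCentralSeries (k + w + 2)) ∧
    (∀ k w w' : ℕ, ∀ a ∈ (⊤ : Subgroup G).lowerCentralSeries k,
      ∀ g ∈ (⊤ : Subgroup G).lowerCentralSeries w,
      ∀ h ∈ (⊤ : Subgroup G).lowerCentralSeries w',
      ⁅⁅a, h⁆, g⁆ * (⁅a, ⁅h, g⁆⁆ * ⁅⁅a, g⁆, h⁆)⁻¹ ∈
        (⊤ : Subgroup G).lowerCentralSeries (k + w + w' + 3))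

/-! ### The linearised Engel identity -/

/-- CUB.  PROOF (from GMA).  `⁅fc S h, fc S' h'⁆ = fc (S ∪ S') ⁅h, h'⁆` (evaluate at `T`: both factors
are non-trivial only if `S ⊆ T` and `S' ⊆ T`), and for `h` of weight `t + wt S`, `h'` of weight
`t' + wt S'` the element `⁅h, h'⁆` is in `gm (t + t' + wt S + wt S') ≤ gm (t + t' + wt (S ∪ S'))`
(`wt (S ∪ S') ≤ wt S + wt S'`). So commutators of generators of `Cb t` and `Cb t'` are generators of
`Cb (t + t')`. (2) is clear (`gm` is antitone), in particular all `Cb t ≤ Cb 0`. `Cb s` is normalised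
by `Cb 0`: for generators `b` of `Cb 0` and `n` of `Cb s`, `b * n * b⁻¹ = ⁅b, n⁆ * n ∈ Cb s`, hence
`b (Cb s) b⁻¹ ≤ Cb s` for generators `b`; the same for `b⁻¹`, which is `(fc S h)⁻¹ = fc S h⁻¹`, again
a generator; so for all `b ∈ Cb 0`. (1) Fix a generator `n` of `Cb t`; the set of
`b ∈ Cb t'` with `⁅n, b⁆ ∈ Cb (t + t')` contains the generators and is a subgroup, because
`⁅n, b * b'⁆ = ⁅n, b⁆ * (b * ⁅n, b'⁆ * b⁻¹)`, and inverses similarly, `Cb (t + t')` being normalised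
by `b`. Then fix `b ∈ Cb t'` and vary the first argument in the same way. -/
def StCUB : Prop :=
  ∀ (n : ℕ) (G : Type) [Group G] (ω : Fin n → ℕ),
    (∀ t t' : ℕ, ⁅(Cb ω t : Subgroup (Finset (Fin n) → G)),
      (Cb ω t' : Subgroup (Finset (Fin n) → G))⁆ ≤ Cb ω (t + t')) ∧
    (∀ t t' : ℕ, t ≤ t' → (Cb ω t' : Subgroup (Finset (Fin n) → G)) ≤ Cb ω t)

/-- CUV.  PROOF (from GMA, CUB).  Let `S_1, …, S_M` (`M = 2 ^ n`) be the subsets of `Fin n` ordered by
cardinality (any linear extension), and `N_k` the subgroup generated by the `fc S_i h`, `i ≥ k`,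
`h ∈ gm (t + wt S_i)`. `N_1 = Cb ω t`, `N_{M+1} = 1`. Every element of `N_k` is of the form
`fc S_k h * F'` with `h ∈ gm (t + wt S_k)`, `F' ∈ N_{k+1}`: these elements form a subgroup, because
`fc S_k h * fc S_k h' = fc S_k (h * h')` and `fc S_k h` normalises `N_{k+1}`
(`⁅fc S_k h, fc S_i h'⁆ = fc (S_k ∪ S_i) ⁅h, h'⁆`, where `S_k ∪ S_i` is some `S_{i'}` with `i' ≥ i ≥ k+1`
and `⁅h, h'⁆ ∈ gm (2 t + wt S_k + wt S_i) ≤ gm (t + wt (S_k ∪ S_i))`). All elements of `N_{k+1}` have the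
value `1` at `S_k` (because `S_i ⊆ S_k` is impossible for `i > k`). Let `F ∈ Cb ω t` with `F T = 1` for
`T ≠ univ`. By induction `F ∈ N_k` for all `k ≤ M`: `F = fc S_k h * F'`, and for `k < M` (so
`S_k ≠ univ`) `1 = F S_k = h`. Finally `F ∈ N_M`, `S_M = univ`, `F = fc univ h`,
`F univ = h ∈ gm (t + wt univ)`. (Instead of a numbering of the subsets one may use induction on an
upper set `U` of subsets: `F` is in the subgroup generated by the `fc S h`, `S ∈ U`; remove a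
minimal element of `U` of minimal cardinality.) -/
def StCUV : Prop :=
  ∀ (n : ℕ) (G : Type) [Group G] (ω : Fin n → ℕ) (t : ℕ) (F : Finset (Fin n) → G),
    F ∈ (Cb ω t : Subgroup (Finset (Fin n) → G)) → (∀ T, T ≠ Finset.univ → F T = 1) →
    F Finset.univ ∈ gm G (t + wt ω Finset.univ)

/-- ABE (linearised Engel identity modulo an abelian section).  PROOF (from StPOL).  `B` is normal in
`C` (`B ≤ A ≤ C`), `Q = C ⧸ B`, `Ā` the image of `A`, an abelian normal subgroup of `Q`; `Q` has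
exponent dividing `p`. Write `Ā` additively, an `𝔽_p`-space, and let `ρ : Q →* AddMonoid.End Ā` be the
conjugation action, `R = AddMonoid.End Ā`, a ring with `(p : R) = 0`.
(1) `(ρ g - 1) ^ (p - 1) = 0` for `g ∈ Q`: for `a ∈ Ā`, `(a * g) ^ p = 1` and `g ^ p = 1` give
`a * (g a g⁻¹) * (g² a g⁻²) ⋯ (g^(p-1) a g^(-(p-1))) = 1`, i.e. `∑_{i < p} (ρ g) ^ i = 0`, and
`∑_{i < p} X ^ i = (X - 1) ^ (p - 1)` in `(ZMod p)[X]` (this is done in the module ABN,
`Pool.Agent.Helper63.RB.M_ABN`).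
(2) StPOL for `n = p - 1` and `x j = ρ (g j) - 1` (where `1 + x j = ρ (g j)`, so the product over `S`
minus `1` is `ρ` of an element minus `1`): `∑_σ ∏ x (σ i)` is in the additive group generated by the
values `(w.map x).prod`, `w` a list of indices of length `> p - 1` in which every index occurs. The
same with all products reversed (reindex: apply StPOL in the opposite ring, or note that
reversing the order of `Fin n` permutes the `σ` and the words).
(3) For `a ∈ Ā` and `g ∈ Q`: `⁅a, g⁆ = a * (g * a * g⁻¹)⁻¹`, i.e. additively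
`a - ρ g a = - (ρ g - 1) a`. So the image of `ic v (u.map g)` is
`(-1) ^ u.length • (x u_k) ⋯ (x u_1) v`. Hence the image of the product over `σ` of
`ic v (List.ofFn fun i => g (σ i))` is `(-1)^(p-1) • ∑_σ (x (σ (p-2)) ⋯ x (σ 0)) v`, which by (2) is
a sum of elements `± ((w.map x).reverse.prod) v`, i.e. of images of `(ic v (w.map g)) ^ (± 1)`, `w` as
in the statement. Take for `z` the inverse of the product of these elements. -/
def StABE : Prop :=
  ∀ (p : ℕ) [Fact p.Prime] (K : Type) [Group K], (∀ g : K, g ^ p = 1) →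
    ∀ A B C : Subgroup K, B ≤ A → A ≤ C → (∀ c ∈ C, ∀ a ∈ A, c * a * c⁻¹ ∈ A) →
    (∀ c ∈ C, ∀ b ∈ B, c * b * c⁻¹ ∈ B) → (∀ a ∈ A, ∀ a' ∈ A, ⁅a, a'⁆ ∈ B) →
    ∀ (v : K) (g : Fin (p - 1) → K), v ∈ A → (∀ j, g j ∈ C) →
    ∃ z ∈ Subgroup.closure {h : K | ∃ u : List (Fin (p - 1)), p - 1 < u.length ∧
        (∀ i, i ∈ u) ∧ h = ic v (u.map g)},
      ((Finset.univ : Finset (Equiv.Perm (Fin (p - 1)))).toList.map fun σ =>
        ic v (List.ofFn fun i => g (σ i))).prod * z ∈ B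

/-- ENG (the linearised Engel identity in the lower central series).  PROOF (from GMA, CUB, CUV,
ABE).  `n = p - 1`, `K` = the group of functions `Finset (Fin n) → G` (exponent dividing `p`),
`A = Cb ω i`, `B = Cb ω (2 * i)`, `C = Cb ω 0`. By CUB `B ≤ A ≤ C`, `A` and `B` are normalised by `C`
(`c * a * c⁻¹ = ⁅c, a⁆ * a`, `⁅C, A⁆ ≤ A`), and `⁅A, A⁆ ≤ B`. Let `Y = fc ∅ v ∈ A` (`v ∈ gm i`) and
`X j = fc {j} (g j) ∈ C` (`g j ∈ gm (ω j) = gm (0 + wt {j})`). ABE: there is `z` in the subgroup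
generated by the `ic Y (u.map X)`, `u` of length `> n` in which every index occurs, such that
`F = (∏_σ ic Y (List.ofFn fun i => X (σ i))) * z ∈ Cb ω (2 * i)`.
Evaluation at `T : Finset (Fin n)` is a homomorphism, `Y T = v`, `X j T = g j` if `j ∈ T` and `1`
otherwise. If `T ≠ univ`, some `j ∉ T`; every `ic Y (u.map X)` with `j ∈ u` has the value `1` at `T`
(`⁅a, 1⁆ = 1`, `⁅1, b⁆ = 1`). So `F T = 1`, and CUV gives `F univ ∈ gm (2 * i + wt ω univ)`, which is
contained in `gm (i + wt ω univ + 1)` because `i ≥ 1`. Further `z univ` is in the subgroup generated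
by the `ic v (u.map g) ∈ gm (i + (u.map ω).sum)` (GMA (3)), and
`(u.map ω).sum ≥ wt ω univ + 1`: every index occurs in `u`, `u` has more than `n` entries, so some
index occurs twice, and all `ω j ≥ 1`. Hence `z univ ∈ gm (i + wt ω univ + 1)`, and so is the product
`F univ * (z univ)⁻¹ = ∏_σ ic v (List.ofFn fun i => g (σ i))`. -/
def StENG : Prop :=
  ∀ (p : ℕ) [Fact p.Prime] (G : Type) [Group G], (∀ g : G, g ^ p = 1) →
    ∀ (i : ℕ) (ω : Fin (p - 1) → ℕ) (g : Fin (p - 1) → G) (v : G), 1 ≤ i → (∀ j, 1 ≤ ω j) →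
    v ∈ gm G i → (∀ j, g j ∈ gm G (ω j)) →
    ((Finset.univ : Finset (Equiv.Perm (Fin (p - 1)))).toList.map fun σ =>
      ic v (List.ofFn fun j => g (σ j))).prod ∈ gm G (i + (∑ j, ω j) + 1)

/-! ### The associated graded space -/

/-- GRV.  PROOF (from BIL).  `Γ k` = the lower central series, `Q k` = the quotient of `Γ k` by
(the subgroup of `Γ k` given by) `Γ (k + 1)`, which is a commutative group (`⁅Γ k, Γ k⁆ ≤
Γ (2 k + 1) ≤ Γ (k + 1)`) of exponent dividing `p`; so `Additive (Q k)` is a module over `ZMod p`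
(`AddCommGroup.zmodModule`). `V` is the direct sum of the `Additive (Q k)` (`DirectSum` or `Π₀ k`).
`e k a` is the class of `a` in the component `k` if `a ∈ Γ k`, and `0` otherwise. For `g ∈ Γ w` the
map `a ↦ ⁅a, g⁆`, `Γ k → Γ (k + w + 1)`, induces an additive map `Q k → Q (k + w + 1)` by BIL (1) and
(3) (and BIL (1) for `a ∈ Γ (k + 1)`); additive maps of modules over `ZMod p` are linear
(`AddMonoidHom.toZModLinearMap`). `D w g` is the sum of these maps (`DirectSum.toModule` or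
`DFinsupp.lsum`), and `D w g = 0` if `g ∉ Γ w`. The last property holds because the `e k a` generate
`V`. -/
def StGRV : Prop :=
  ∀ (p : ℕ) [Fact p.Prime] (G : Type) [Group G], (∀ g : G, g ^ p = 1) →
    ∃ (V : Type) (_ : AddCommGroup V) (_ : Module (ZMod p) V) (e : ℕ → G → V)
      (D : ℕ → G → Module.End (ZMod p) V),
      (∀ k, ∀ a ∈ (⊤ : Subgroup G).lowerCentralSeries k,
        ∀ b ∈ (⊤ : Subgroup G).lowerCentralSeries k, e k (a * b) = e k a + e k b) ∧
      (∀ k, ∀ a ∈ (⊤ : Subgroup G).lowerCentralSeries k,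
        (e k a = 0 ↔ a ∈ (⊤ : Subgroup G).lowerCentralSeries (k + 1))) ∧
      (∀ k w, ∀ a ∈ (⊤ : Subgroup G).lowerCentralSeries k,
        ∀ g ∈ (⊤ : Subgroup G).lowerCentralSeries w, D w g (e k a) = e (k + w + 1) ⁅a, g⁆) ∧
      (∀ F : Module.End (ZMod p) V,
        (∀ k, ∀ a ∈ (⊤ : Subgroup G).lowerCentralSeries k, F (e k a) = 0) → F = 0)

/-- GRD.  PROOF (from BIL, ENG).  All identities between operators are checked on the `e k a`,
`a ∈ Γ k` (last property). If `x, y ∈ Γ k` and `x * y⁻¹ ∈ Γ (k + 1)` then `e k x = e k y` (because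
`x = (x * y⁻¹) * y`). (1) `e (k + w + 1) ⁅a, g * h⁆ = e _ (⁅a, g⁆ * ⁅a, h⁆)` by BIL (4).
(2) `cb (D w g) (D w' h) (e k a) = e _ ⁅⁅a, h⁆, g⁆ - e _ ⁅⁅a, g⁆, h⁆` and
`D (w + w' + 1) ⁅h, g⁆ (e k a) = e _ ⁅a, ⁅h, g⁆⁆`, all with the index `k + w + w' + 2` (rewrite the
natural numbers `k + w' + 1 + w + 1` and `k + w + 1 + w' + 1`), and BIL (5). (`⁅h, g⁆ ∈ Γ (w + w' + 1)`.)
(3) On `e k a`, `a ∈ Γ k = gm (k + 1)`: by induction on the list,
`((List.ofFn fun i => D (ω (σ i)) (g (σ i))).prod) (e k a) =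
e (k + ∑ (ω j + 1)) (ic a ((List.ofFn fun i => g (σ i)).reverse))` (the last factor of the product
acts first). Summing over `σ` (reindex by the reversal of `Fin (p - 1)`), using additivity of `e`,
we get `e (k + ∑ (ω j + 1))` of the product over all `σ` of `ic a (List.ofFn fun i => g (σ i))`, which
by ENG (`i = k + 1`, weights `ω j + 1`) is in `gm (k + 1 + ∑ (ω j + 1) + 1)`, i.e. in
`Γ (k + ∑ (ω j + 1) + 1)`; so it is `0`. (4) from (2) and (1): if `g`, `h` commute,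
`cb (D w g) (D w' h) = D _ 1`, and `D _ 1 = D _ 1 + D _ 1` by (1), so `D _ 1 = 0`. -/
def StGRD : Prop :=
  ∀ (p : ℕ) [Fact p.Prime] (G : Type) [Group G], (∀ g : G, g ^ p = 1) →
    ∀ (V : Type) [AddCommGroup V] [Module (ZMod p) V] (e : ℕ → G → V)
      (D : ℕ → G → Module.End (ZMod p) V),
      (∀ k, ∀ a ∈ (⊤ : Subgroup G).lowerCentralSeries k,
        ∀ b ∈ (⊤ : Subgroup G).lowerCentralSeries k, e k (a * b) = e k a + e k b) →
      (∀ k, ∀ a ∈ (⊤ : Subgroup G).lowerCentralSeries k,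
        (e k a = 0 ↔ a ∈ (⊤ : Subgroup G).lowerCentralSeries (k + 1))) →
      (∀ k w, ∀ a ∈ (⊤ : Subgroup G).lowerCentralSeries k,
        ∀ g ∈ (⊤ : Subgroup G).lowerCentralSeries w, D w g (e k a) = e (k + w + 1) ⁅a, g⁆) →
      (∀ F : Module.End (ZMod p) V,
        (∀ k, ∀ a ∈ (⊤ : Subgroup G).lowerCentralSeries k, F (e k a) = 0) → F = 0) →
      (∀ w, ∀ g ∈ (⊤ : Subgroup G).lowerCentralSeries w,
        ∀ h ∈ (⊤ : Subgroup G).lowerCentralSeries w, D w (g * h) = D w g + D w h) ∧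
      (∀ w w', ∀ g ∈ (⊤ : Subgroup G).lowerCentralSeries w,
        ∀ h ∈ (⊤ : Subgroup G).lowerCentralSeries w',
        cb (D w g) (D w' h) = D (w + w' + 1) ⁅h, g⁆) ∧
      (∀ (ω : Fin (p - 1) → ℕ) (g : Fin (p - 1) → G),
        (∀ j, g j ∈ (⊤ : Subgroup G).lowerCentralSeries (ω j)) →
        ∑ σ : Equiv.Perm (Fin (p - 1)),
          (List.ofFn fun i => D (ω (σ i)) (g (σ i))).prod = 0) ∧
      (∀ g h : G, g * h = h * g → D 0 g * D 0 h = D 0 h * D 0 g)

/-- MLS (multilinearity).  PROOF.  For a set `s` of indices: if `l i ∈ AddSubgroup.closure S` for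
`i ∈ s` and `l i ∈ S` for `i ∉ s`, then the sum is `0`; induction on `s`. Step `insert j s`: by
`AddSubgroup.closure_induction` for `l j`: the expression
`l ↦ ∑ σ, (List.ofFn fun i => l (σ i)).prod` is additive in the variable `l j` (in every product
`l j` occurs exactly once), and `0` for `l j = 0`. (For instance: it is the sum over `σ` of
`(MultilinearMap.mkPiAlgebraFin ℤ n A).domDomCongr σ`.) -/
def StMLS : Prop :=
  ∀ (A : Type) [Ring A] (n : ℕ) (S : Set A),
    (∀ l : Fin n → A, (∀ i, l i ∈ S) →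
      ∑ σ : Equiv.Perm (Fin n), (List.ofFn fun i => l (σ i)).prod = 0) →
    ∀ l : Fin n → A, (∀ i, l i ∈ AddSubgroup.closure S) →
      ∑ σ : Equiv.Perm (Fin n), (List.ofFn fun i => l (σ i)).prod = 0

/-- The non-commuting graph of the set `X`. -/
def NC {G : Type} [Group G] (X : Set G) : ↥X → ↥X → Prop :=
  fun a b => (a : G) * (b : G) ≠ (b : G) * (a : G)

/-- GRN.  PROOF (from GRV, GRD, MLS).  Take `V, e, D` from GRV; `f x = D 0 x`, and `e 0`. `Cmm` is
GRD (4). By GRV (third property) and induction on `u` (from the right),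
`act f u (e 0 x) = e u.length (ic x (u.map (↑)))`, and `ic x _ ∈ Γ u.length`; so
`act f u (e 0 x) = 0` implies `ic x _ ∈ Γ (u.length + 1)`. `NilH f (p - 1) univ ⊤ ⊥`: let
`S = {D w g | g ∈ Γ w}`. All elements of `Lam f univ` are in `AddSubgroup.closure S`: the `f y` are
in `S`; sums; `c • a` is `c.val • a` (a natural multiple); and if `a, b ∈ AddSubgroup.closure S` then
`cb a b` too (`cb` is biadditive, and on `S` use GRD (2)). By GRD (3) the symmetrised products of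
elements of `S` vanish; apply MLS. -/
def StGRN : Prop :=
  ∀ (p : ℕ) [Fact p.Prime] (G : Type) [Group G], (∀ g : G, g ^ p = 1) → ∀ X : Set G,
    ∃ (V : Type) (_ : AddCommGroup V) (_ : Module (ZMod p) V) (f : ↥X → Module.End (ZMod p) V)
      (e : G → V), Cmm (NC X) f ∧ NilH f (p - 1) Set.univ ⊤ ⊥ ∧
      ∀ (x : G) (u : List ↥X), act f u (e x) = 0 →
        ic x (u.map fun y => (y : G)) ∈ (⊤ : Subgroup G).lowerCentralSeries (u.length + 1)

/-! ### The theorem -/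

/-- TOP.  PROOF (from BIL).  `Γ j` = the lower central series. Claim: for all `j`,
`Γ j ≤ Subgroup.closure {ic x u | x ∈ X, u a list of elements of X of length j} ⊔ Γ (j + 1)`.
`j = 0`: `X` generates `G`. Step: `Γ (j + 1) = ⁅Γ j, ⊤⁆` is generated by the `⁅a, g⁆`, `a ∈ Γ j`. Let `N`
be the subgroup on the right for `j + 1` (it contains the normal subgroup `Γ (j + 2)` and
`N ≤ Γ (j+1)`; modulo `Γ (j + 2)` the group `Γ (j + 1)` is central). The set of `g` with `⁅ic x u, g⁆ ∈ N` is a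
subgroup (BIL (4), `w = 0`) which contains `X`; so it is everything. For fixed `g` the set of
`a ∈ Γ j` with `⁅a, g⁆ ∈ N` is a subgroup (BIL (3)) which contains the `ic x u` and `Γ (j + 1)`, so it
is `Γ j`. For `j = n`: `Γ (n + 1) = ⊥` and `Γ n ≠ ⊥`, so some `ic x u ≠ 1`. -/
def StTOP : Prop :=
  ∀ (G : Type) [Group G] (X : Set G) (n : ℕ), Subgroup.closure X = ⊤ →
    (⊤ : Subgroup G).lowerCentralSeries (n + 1) = ⊥ →
    (⊤ : Subgroup G).lowerCentralSeries n ≠ ⊥ →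
    ∃ (x : ↥X) (u : List ↥X), u.length = n ∧ ic (x : G) (u.map fun y => (y : G)) ≠ 1

/-- GCN.  PROOF (from CHA).  By CHA it is enough that `Cn (NC X) x u`. Let `u = d₁ ++ y :: d₂` and
suppose that `y` commutes with `x` and all letters of `d₁`. Then `y` commutes with
`a = ic x d₁`, an element of the subgroup generated by them; so `⁅a, y⁆ = 1` and, since
`⁅1, b⁆ = 1`, `ic x u = 1`, contradiction. (`NC X` is symmetric.) -/
def StGCN : Prop :=
  ∀ (G : Type) [Group G] (X : Set G) (x : ↥X) (u : List ↥X),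
    ic (x : G) (u.map fun y => (y : G)) ≠ 1 → ∀ y ∈ u, ∀ r n : ℕ,
    ¬ nr (NC X) ((r + 1) * n) x y → Pk (NC X) r n (ltr u)

/-- The ball of radius `n` around `x` in the non-commuting graph of `X`: the elements which can be
reached from `x` by at most `n` steps, each from an element `z` to an element `y` of `X` which does
not commute with `z`. -/
def Ball {G : Type} [Group G] (X : Set G) (x : G) : ℕ → Set G
  | 0 => {x}
  | n + 1 => {y | ∃ z ∈ Ball X x n, z = y ∨ (y ∈ X ∧ z * y ≠ y * z)}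

/-- BAL.  PROOF.  (1) Induction on `n`. (2) Induction on `n` (`x ∈ X`). (3) Induction on `n`. (4)
Induction on `n`: `Ball X x (n + 1)` is the union over `z ∈ Ball X x n` (`z ∈ X` by (2)) of the sets
`{z} ∪ {y ∈ X | z * y ≠ y * z}`, which have at most `Δ + 1` elements. -/
def StBAL : Prop :=
  ∀ (G : Type) [Group G] (X : Set G),
    (∀ (n : ℕ) (x y : ↥X), nr (NC X) n x y → (y : G) ∈ Ball X (x : G) n) ∧
    (∀ (n : ℕ) (x : G), x ∈ X → Ball X x n ⊆ X) ∧
    (∀ (n : ℕ) (x : G), x ∈ Ball X x n) ∧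
    (∀ (Δ n : ℕ) (x : G), x ∈ X →
      (∀ z ∈ X, {y | y ∈ X ∧ z * y ≠ y * z}.Finite ∧
        {y | y ∈ X ∧ z * y ≠ y * z}.ncard ≤ Δ) →
      (Ball X x n).Finite ∧ (Ball X x n).ncard ≤ (Δ + 1) ^ n)

/-- FNL (the theorem for nilpotent groups).  PROOF (from LIE, GRN, TOP, GCN, BAL).  LIE for
`m = p - 1 < p` gives `r, q`; `R = (r + 1) * (q + 1)`. Let `N` be the least number with `Γ N = ⊥`.
If `N ≤ c`, then `Γ c = ⊥` (the series is antitone). Suppose `N > c`, `N = n + 1`, `n ≥ c`,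
`Γ n ≠ ⊥`. TOP gives `x, u` with `u.length = n` and `ic x u ≠ 1`. GRN: `act f u (e x) ≠ 0` (otherwise
`ic x u ∈ Γ (n + 1) = ⊥`). `Ctx (NC X) f (p - 1) univ ⊤ ⊥` holds, so by `PP p (p - 1) r q` (with
`w = e x ∈ ⊤`), `Pk (NC X) r (q + 1) (ltr u)` is false. By GCN every `y ∈ u` satisfies
`nr (NC X) R x y`, hence `y ∈ Ball X x R` (BAL (1)). Let `H` be the subgroup generated by
`Ball X x R`. Then `ic x u` is in `H.lowerCentralSeries n`: by induction on the initial segments `d` of `u`,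
`ic x d ∈ H.lowerCentralSeries d.length` (`H.lowerCentralSeries (k + 1) =
⁅H.lowerCentralSeries k, H⁆`). But `H.lowerCentralSeries n ≤ H.lowerCentralSeries c = ⊥`,
contradiction. -/
def StFNL : Prop :=
  ∀ (p : ℕ) [Fact p.Prime], ∃ R : ℕ, ∀ (G : Type) [Group G], (∀ g : G, g ^ p = 1) →
    ∀ X : Set G, Subgroup.closure X = ⊤ →
    (∃ N : ℕ, (⊤ : Subgroup G).lowerCentralSeries N = ⊥) → ∀ c : ℕ,
    (∀ x ∈ X, (Subgroup.closure (Ball X x R)).lowerCentralSeries c = ⊥) →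
    (⊤ : Subgroup G).lowerCentralSeries c = ⊥

/-- LFG (locally finite groups).  PROOF (from FNL).  The same `R`. (1) Every
`g ∈ (⊤ : Subgroup G).lowerCentralSeries c` is in `(Subgroup.closure X₀).lowerCentralSeries c` for
some finite `X₀ ⊆ X`: induction on `c`; the set of all such `g` is a subgroup (for finite
`X₀, X₁` take the union; the lower central series of a subgroup is monotone in the subgroup) and for
`c = 0` use `Subgroup.closure X = ⊤` (every element of the closure of `X` is in the closure of a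
finite subset), for `c + 1` it contains the commutators `⁅a, b⁆`.
(2) Let `H = Subgroup.closure X₀`, finite by hypothesis, a `p`-group (`IsPGroup`), hence nilpotent:
`(⊤ : Subgroup H).lowerCentralSeries N = ⊥` for some `N`. Apply FNL to the group `H` and the set
`X' = {x : H | (x : G) ∈ X₀}`, which generates `H`. For `x ∈ X'` the image in `G` of
`Ball X' x R` is contained in `Ball X (x : G) R` (induction), so the image of the lower central
series of the closure of `Ball X' x R` is contained in that of the closure of `Ball X x R`, whose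
term `c` is trivial. FNL: `(⊤ : Subgroup H).lowerCentralSeries c = ⊥`, i.e.
`H.lowerCentralSeries c = ⊥` (image under the injective `H.subtype`), so `g = 1`. -/
def StLFG : Prop :=
  ∀ (p R : ℕ) [Fact p.Prime],
    (∀ (G : Type) [Group G], (∀ g : G, g ^ p = 1) →
      ∀ X : Set G, Subgroup.closure X = ⊤ →
      (∃ N : ℕ, (⊤ : Subgroup G).lowerCentralSeries N = ⊥) → ∀ c : ℕ,
      (∀ x ∈ X, (Subgroup.closure (Ball X x R)).lowerCentralSeries c = ⊥) →
      (⊤ : Subgroup G).lowerCentralSeries c = ⊥) →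
    ∀ (G : Type) [Group G], (∀ g : G, g ^ p = 1) →
    (∀ s : Finset G, Finite (Subgroup.closure (s : Set G))) →
    ∀ X : Set G, Subgroup.closure X = ⊤ → ∀ c : ℕ,
    (∀ x ∈ X, (Subgroup.closure (Ball X x R)).lowerCentralSeries c = ⊥) →
    (⊤ : Subgroup G).lowerCentralSeries c = ⊥

/-- BDG (bounded non-commuting degree).  PROOF (from BAL).  Let `x ∈ X`, `S = Ball X x R`, a finite set
with at most `(Δ + 1) ^ R` elements (BAL (4)), and `H = Subgroup.closure S`, a finite group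
(hypothesis, `S` as a `Finset`) of exponent dividing `p`. There is a function
`f' : Fin ((Δ + 1) ^ R) → G` with range `S` (`S` is not empty, `x ∈ S` by BAL (3), and has at most
`(Δ + 1) ^ R` elements), which gives `f : Fin ((Δ + 1) ^ R) → H` with
`Subgroup.closure (Set.range f) = ⊤` (for instance `Subgroup.closure_preimage_le` or map to `G`). So
`(⊤ : Subgroup H).lowerCentralSeries c = ⊥`, and by transport along `H.subtype`
`H.lowerCentralSeries c = ⊥`. -/
def StBDG : Prop :=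
  ∀ (p R Δ c : ℕ),
    (∀ (H : Type) [Group H] [Finite H], (∀ h : H, h ^ p = 1) →
      (∃ f : Fin ((Δ + 1) ^ R) → H, Subgroup.closure (Set.range f) = ⊤) →
      (⊤ : Subgroup H).lowerCentralSeries c = ⊥) →
    ∀ (G : Type) [Group G], (∀ g : G, g ^ p = 1) →
    (∀ s : Finset G, Finite (Subgroup.closure (s : Set G))) →
    ∀ X : Set G, (∀ x ∈ X, {y | y ∈ X ∧ x * y ≠ y * x}.Finite ∧
      {y | y ∈ X ∧ x * y ≠ y * x}.ncard ≤ Δ) →
    ∀ x ∈ X, (Subgroup.closure (Ball X x R)).lowerCentralSeries c = ⊥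

end Pool.Agent.Helper45.LGB
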